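import Mathlib

/-! Project TT: counting boxes in dense sets of `d`-tuples (Jensen, one coordinate at a time). -/

set_option autoImplicit false

namespace Pool.Agent.N646.TT

open Finset

open Classical in
/-- **many boxes** -/
theorem boxes (K T : ℕ) (hK : 1 ≤ K) : ∀ (d : ℕ) {β : Type} (Z : Finset β) (Q : (Fin d → ℕ) → β → Prop)
    (δ : ℝ), 0 ≤ δ → δ * (Z.card * (T : ℝ) ^ d) ≤
      ((((Fintype.piFinset (fun _ : Fin d => range T)) ×ˢ Z).filter (fun x => Q x.1 x.2)).card : ℝ) →
    δ ^ (K ^ d) * (Z.card * (T : ℝ) ^ (d * K)) ≤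
      ((((Fintype.piFinset (fun _ : Fin d => Fintype.piFinset (fun _ : Fin K => range T))) ×ˢ Z).filter
        (fun x => ∀ σ : Fin d → Fin K, Q (fun g => x.1 g (σ g)) x.2)).card : ℝ) := by
  intro d
  induction d with
  | zero =>
    intro β Z Q δ hδ h
    rw [pow_zero, pow_one, Nat.zero_mul, pow_zero, mul_one]
    rw [pow_zero, mul_one] at h
    refine h.trans ?_
    rw [Nat.cast_le]
    apply card_le_card_of_injOn (fun x => ((fun g => Fin.elim0 g : Fin 0 → Fin K → ℕ), x.2))
    · intro x hx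
      rw [mem_coe, mem_filter, mem_product] at hx
      rw [mem_coe, mem_filter, mem_product, Fintype.mem_piFinset]
      refine ⟨⟨fun g => Fin.elim0 g, hx.1.2⟩, fun σ => ?_⟩
      have e : (fun g : Fin 0 => (fun g => Fin.elim0 g : Fin 0 → Fin K → ℕ) g (σ g)) = x.1 := by
        funext g
        exact Fin.elim0 g
      show Q (fun g : Fin 0 => (fun g => Fin.elim0 g : Fin 0 → Fin K → ℕ) g (σ g)) x.2
      rw [e]
      exact hx.2
    · intro x _ y _ hxy
      have h7 : x.2 = y.2 := (Prod.mk.inj hxy).2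
      refine Prod.ext ?_ h7
      funext g
      exact Fin.elim0 g
  | succ d ih =>
    intro β Z Q δ hδ h
    obtain ⟨K', rfl⟩ : ∃ K', K = K' + 1 := ⟨K - 1, by omega⟩
    set P : Finset ((Fin d → ℕ) × β) := (Fintype.piFinset (fun _ : Fin d => range T)) ×ˢ Z with hP
    have hPc : (P.card : ℝ) = Z.card * (T : ℝ) ^ d := by
      rw [hP, card_product, Fintype.card_piFinset, prod_const, card_univ, Fintype.card_fin, card_range]
      push_cast
      ring
    set r : (Fin d → ℕ) × β → ℕ := fun w =>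
      ((range T).filter (fun t => Q (Fin.cons t w.1) w.2)).card with hr
    set N : Finset ((Fin (d + 1) → ℕ) × β) :=
      ((Fintype.piFinset (fun _ : Fin (d + 1) => range T)) ×ˢ Z).filter (fun x => Q x.1 x.2) with hN
    -- the fibres
    have h1 : N.card ≤ ∑ w ∈ P, r w := by
      rw [card_eq_sum_card_fiberwise (f := fun x : (Fin (d + 1) → ℕ) × β => (Fin.tail x.1, x.2)) (t := P)]
      · refine sum_le_sum fun w _ => ?_
        rw [hr]
        apply card_le_card_of_injOn (fun x => x.1 0)
        · intro x hx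
          rw [mem_coe, mem_filter, hN, mem_filter, mem_product, Fintype.mem_piFinset] at hx
          obtain ⟨⟨⟨h2, h3⟩, h4⟩, h5⟩ := hx
          rw [mem_coe, mem_filter]
          refine ⟨h2 0, ?_⟩
          have h6 : w.1 = Fin.tail x.1 := (congrArg Prod.fst h5).symm
          have h7 : w.2 = x.2 := (congrArg Prod.snd h5).symm
          rw [h6, h7, Fin.cons_self_tail]
          exact h4
        · intro x hx y hy hxy
          rw [mem_coe, mem_filter] at hx hy
          have hxy' : (Fin.tail x.1, x.2) = (Fin.tail y.1, y.2) := hx.2.trans hy.2.symm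
          have h6 : Fin.tail x.1 = Fin.tail y.1 := congrArg Prod.fst hxy'
          have h7 : x.2 = y.2 := (Prod.mk.inj hxy').2
          refine Prod.ext ?_ h7
          rw [← Fin.cons_self_tail x.1, ← Fin.cons_self_tail y.1, h6]
          have h8 : x.1 0 = y.1 0 := hxy
          rw [h8]
      · intro x hx
        rw [mem_coe, hN, mem_filter, mem_product, Fintype.mem_piFinset] at hx
        rw [mem_coe, hP, mem_product, Fintype.mem_piFinset]
        exact ⟨fun g => hx.1.1 g.succ, hx.1.2⟩
    -- the new parameter space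
    set Z' : Finset (β × (Fin (K' + 1) → ℕ)) := Z ×ˢ Fintype.piFinset (fun _ : Fin (K' + 1) => range T)
      with hZ'
    obtain ⟨Q', hQ'⟩ : ∃ Q' : (Fin d → ℕ) → β × (Fin (K' + 1) → ℕ) → Prop,
      Q' = fun t w => ∀ i, Q (Fin.cons (w.2 i) t) w.1 := ⟨_, rfl⟩
    have hZ'c : (Z'.card : ℝ) = Z.card * (T : ℝ) ^ (K' + 1) := by
      rw [hZ', card_product, Fintype.card_piFinset, prod_const, card_univ, Fintype.card_fin, card_range]
      push_cast
      ring
    have h2 : ∑ w ∈ P, r w ^ (K' + 1) ≤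
        (((Fintype.piFinset (fun _ : Fin d => range T)) ×ˢ Z').filter (fun x => Q' x.1 x.2)).card := by
      have h3 : ∑ w ∈ P, r w ^ (K' + 1) = (P.sigma (fun w => Fintype.piFinset (fun _ : Fin (K' + 1) =>
          (range T).filter (fun t => Q (Fin.cons t w.1) w.2)))).card := by
        rw [card_sigma]
        refine sum_congr rfl fun w _ => ?_
        rw [Fintype.card_piFinset, prod_const, card_univ, Fintype.card_fin]
      rw [h3]
      apply card_le_card_of_injOn (fun q : (Σ _ : (Fin d → ℕ) × β, Fin (K' + 1) → ℕ) =>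
        (q.1.1, (q.1.2, q.2)))
      · rintro ⟨w, v⟩ hq
        rw [mem_coe, mem_sigma, Fintype.mem_piFinset] at hq
        obtain ⟨hq1, hq2⟩ := hq
        rw [hP, mem_product] at hq1
        refine mem_coe.2 (mem_filter.2 ⟨mem_product.2 ⟨hq1.1, ?_⟩, ?_⟩)
        · rw [hZ']
          exact mem_product.2 ⟨hq1.2, Fintype.mem_piFinset.2 fun i => (mem_filter.1 (hq2 i)).1⟩
        · show Q' w.1 (w.2, v)
          rw [hQ']
          intro i
          exact (mem_filter.1 (hq2 i)).2
      · rintro ⟨⟨w1, w2⟩, v⟩ _ ⟨⟨w1', w2'⟩, v'⟩ _ hh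
        simp only [Prod.mk.injEq] at hh
        obtain ⟨a1, a2, a3⟩ := hh
        subst a1 a2 a3
        rfl
    have h3 : δ ^ (K' + 1) * (Z'.card * (T : ℝ) ^ d) ≤
        ((((Fintype.piFinset (fun _ : Fin d => range T)) ×ˢ Z').filter (fun x => Q' x.1 x.2)).card : ℝ) := by
      refine le_trans ?_ (Nat.cast_le.2 h2)
      push_cast
      rcases Nat.eq_zero_or_pos P.card with hP0 | hP0
      · have h4 : (Z.card * (T : ℝ) ^ d) = 0 := by rw [← hPc, hP0, Nat.cast_zero]
        have h5 : (Z'.card * (T : ℝ) ^ d) = 0 := by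
          rw [hZ'c]
          calc (Z.card : ℝ) * (T : ℝ) ^ (K' + 1) * (T : ℝ) ^ d
              = (Z.card * (T : ℝ) ^ d) * (T : ℝ) ^ (K' + 1) := by ring
            _ = 0 := by rw [h4, zero_mul]
        rw [h5, mul_zero]
        exact sum_nonneg fun w _ => by positivity
      have hP0R : (0 : ℝ) < P.card := by exact_mod_cast hP0
      have h4 := pow_sum_div_card_le_sum_pow (s := P) (f := fun w => (r w : ℝ))
        (fun w _ => Nat.cast_nonneg _) K'
      refine le_trans ?_ h4
      rw [le_div_iff₀ (by positivity)]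
      have h5 : δ * (P.card * (T : ℝ)) ≤ ∑ w ∈ P, (r w : ℝ) := by
        have h6 : δ * (P.card * (T : ℝ)) = δ * (Z.card * (T : ℝ) ^ (d + 1)) := by
          rw [hPc]
          ring
        rw [h6]
        refine h.trans ?_
        rw [← Nat.cast_sum, Nat.cast_le]
        exact h1
      calc δ ^ (K' + 1) * (Z'.card * (T : ℝ) ^ d) * (P.card : ℝ) ^ K'
          = (δ * (P.card * (T : ℝ))) ^ (K' + 1) := by
            rw [hZ'c]
            have h7 : (Z.card : ℝ) * (T : ℝ) ^ (K' + 1) * (T : ℝ) ^ d = P.card * (T : ℝ) ^ (K' + 1) := by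
              rw [hPc]
              ring
            rw [h7]
            ring
        _ ≤ _ := pow_le_pow_left₀ (by positivity) h5 _
    have h4 := ih Z' Q' (δ ^ (K' + 1)) (by positivity) h3
    have h5 : δ ^ ((K' + 1) ^ (d + 1)) * (Z.card * (T : ℝ) ^ ((d + 1) * (K' + 1))) =
        (δ ^ (K' + 1)) ^ ((K' + 1) ^ d) * (Z'.card * (T : ℝ) ^ (d * (K' + 1))) := by
      rw [hZ'c, ← pow_mul, ← pow_succ']
      have : (d + 1) * (K' + 1) = (K' + 1) + d * (K' + 1) := by ring
      rw [this, pow_add]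
      ring
    rw [h5]
    refine h4.trans ?_
    rw [Nat.cast_le]
    apply card_le_card_of_injOn (fun x : (Fin d → Fin (K' + 1) → ℕ) × (β × (Fin (K' + 1) → ℕ)) =>
      ((Fin.cons x.2.2 x.1 : Fin (d + 1) → Fin (K' + 1) → ℕ), x.2.1))
    · rintro ⟨F, z, v⟩ hx
      obtain ⟨hx0, hx4⟩ := mem_filter.1 (mem_coe.1 hx)
      obtain ⟨hx1, hx23⟩ := mem_product.1 hx0
      rw [hZ'] at hx23
      obtain ⟨hx2, hx3⟩ := mem_product.1 hx23
      have hx1' := Fintype.mem_piFinset.1 hx1
      refine mem_coe.2 (mem_filter.2 ⟨mem_product.2 ⟨Fintype.mem_piFinset.2 fun g => ?_, hx2⟩, fun σ => ?_⟩)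
      · refine Fin.cases ?_ (fun g => ?_) g
        · exact hx3
        · exact hx1' g
      · have h6' := hx4 (Fin.tail σ)
        rw [hQ'] at h6'
        have h6 := h6' (σ 0)
        have e : (Fin.cons (v (σ 0)) (fun g => F g (Fin.tail σ g)) : Fin (d + 1) → ℕ) =
            (fun g => (Fin.cons v F : Fin (d + 1) → Fin (K' + 1) → ℕ) g (σ g)) := by
          funext g
          refine Fin.cases ?_ (fun g => ?_) g
          · rw [Fin.cons_zero, Fin.cons_zero]
          · rw [Fin.cons_succ, Fin.cons_succ]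
            rfl
        have h7 : Q (Fin.cons (v (σ 0)) (fun g => F g (Fin.tail σ g))) z := h6
        rw [e] at h7
        exact h7
    · rintro ⟨F, z, v⟩ _ ⟨F', z', v'⟩ _ hh
      simp only [Prod.mk.injEq] at hh
      obtain ⟨a1, a2⟩ := hh
      obtain ⟨a3, a4⟩ := Fin.cons_injective2 a1
      subst a2 a3 a4
      rfl

end Pool.Agent.N646.TT
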