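import Pool.Agent.N646.TT.Main

/-! Project TT3: counting configurations. -/

set_option autoImplicit false

namespace Pool.Agent.N646.TT

open Finset Filter Topology

open Classical in
/-- configurations counted through all but few of their coordinates -/
theorem rest {ι : Type} [Fintype ι] [DecidableEq ι] (Z : Finset ι) (T : ℕ) (Y : Finset (ι → ℕ))
    (hY : Y ⊆ Fintype.piFinset (fun _ : ι => range T)) (n : ℝ)
    (h' : ∀ H₀ ∈ Fintype.piFinset (fun _ : ι => range T), ∀ S ⊆ Y,
      (∀ H ∈ S, ∀ z, z ∉ Z → H z = H₀ z) → (S.card : ℝ) ≤ n) :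
    (Y.card : ℝ) * (T : ℝ) ^ Z.card ≤ n * (T : ℝ) ^ (Fintype.card ι) := by
  have h : ∀ H₀ ∈ Fintype.piFinset (fun _ : ι => range T),
      ((Y.filter (fun H => ∀ z, z ∉ Z → H z = H₀ z)).card : ℝ) ≤ n := fun H₀ hH₀ =>
    h' H₀ hH₀ _ (filter_subset _ _) (fun H hH => (mem_filter.1 hH).2)
  obtain ⟨P, hP⟩ : ∃ P, P = Fintype.piFinset (fun _ : ι => range T) := ⟨_, rfl⟩
  rw [← hP] at hY h
  have hPc : (P.card : ℝ) = (T : ℝ) ^ (Fintype.card ι) := by
    rw [hP, Fintype.card_piFinset, prod_const, card_univ, card_range]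
    push_cast
    rfl
  have h1 : ∑ H₀ ∈ P, (Y.filter (fun H => ∀ z, z ∉ Z → H z = H₀ z)).card =
      ∑ H ∈ Y, (P.filter (fun H₀ => ∀ z, z ∉ Z → H z = H₀ z)).card := by
    simp only [card_filter]
    exact sum_comm
  have h2 : ∀ H ∈ Y, T ^ Z.card ≤ (P.filter (fun H₀ => ∀ z, z ∉ Z → H z = H₀ z)).card := by
    intro H hH
    have h3 : (Fintype.piFinset (fun z => if z ∈ Z then range T else {H z})).card = T ^ Z.card := by
      rw [Fintype.card_piFinset]
      have h4 : ∀ z ∈ (univ : Finset ι), (if z ∈ Z then range T else {H z}).card =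
          if z ∈ Z then T else 1 := by
        intro z _
        split_ifs
        · rw [card_range]
        · rw [card_singleton]
      rw [prod_congr rfl h4, prod_ite_mem, univ_inter, prod_const]
    rw [← h3]
    apply card_le_card
    intro H₀ hH₀
    have h4 := Fintype.mem_piFinset.1 hH₀
    refine mem_filter.2 ⟨?_, fun z hz => ?_⟩
    · rw [hP]
      refine Fintype.mem_piFinset.2 fun z => ?_
      have h5 := h4 z
      by_cases hz : z ∈ Z
      · rw [if_pos hz] at h5
        exact h5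
      · rw [if_neg hz, mem_singleton] at h5
        rw [h5]
        have h6 := hY hH
        rw [hP] at h6
        exact Fintype.mem_piFinset.1 h6 z
    · have h5 := h4 z
      rw [if_neg hz, mem_singleton] at h5
      exact h5.symm
  calc (Y.card : ℝ) * (T : ℝ) ^ Z.card = ((∑ _H ∈ Y, T ^ Z.card : ℕ) : ℝ) := by
        rw [sum_const, smul_eq_mul]
        push_cast
        rfl
    _ ≤ ((∑ H ∈ Y, (P.filter (fun H₀ => ∀ z, z ∉ Z → H z = H₀ z)).card : ℕ) : ℝ) :=
        Nat.cast_le.2 (sum_le_sum h2)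
    _ = ∑ H₀ ∈ P, ((Y.filter (fun H => ∀ z, z ∉ Z → H z = H₀ z)).card : ℝ) := by
        rw [← h1, Nat.cast_sum]
    _ ≤ ∑ _H₀ ∈ P, n := sum_le_sum h
    _ = _ := by rw [sum_const, nsmul_eq_mul, hPc, mul_comm]

open Classical in
theorem ninj {ι : Type} [Fintype ι] [DecidableEq ι] (T : ℕ) :
    (((Fintype.piFinset (fun _ : ι => range T)).filter (fun H => ¬ Function.Injective H)).card : ℝ) * T ≤
      (Fintype.card ι : ℝ) ^ 2 * (T : ℝ) ^ (Fintype.card ι) := by
  obtain ⟨P, hP⟩ : ∃ P, P = Fintype.piFinset (fun _ : ι => range T) := ⟨_, rfl⟩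
  rw [← hP]
  have h1 : P.filter (fun H => ¬ Function.Injective H) ⊆
      (univ.filter (fun x : ι × ι => x.1 ≠ x.2)).biUnion
        (fun x => P.filter (fun H => H x.1 = H x.2)) := by
    intro H hH
    obtain ⟨h2, h3⟩ := mem_filter.1 hH
    rw [Function.Injective] at h3
    push Not at h3
    obtain ⟨a, b, h4, h5⟩ := h3
    exact mem_biUnion.2 ⟨(a, b), mem_filter.2 ⟨mem_univ _, h5⟩, mem_filter.2 ⟨h2, h4⟩⟩
  have h2 : ∀ x ∈ univ.filter (fun x : ι × ι => x.1 ≠ x.2),
      ((P.filter (fun H => H x.1 = H x.2)).card : ℝ) * T ≤ (T : ℝ) ^ (Fintype.card ι) := by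
    intro x hx
    have hne := (mem_filter.1 hx).2
    have h3 := rest {x.1} T (P.filter (fun H => H x.1 = H x.2)) (by
      rw [hP]
      exact filter_subset _ _) 1 (by
      intro H₀ _ S hS1 hS2
      rw [← Nat.cast_one (R := ℝ), Nat.cast_le, card_le_one]
      intro H hH H' hH'
      have h5 := hS2 H hH
      have h5' := hS2 H' hH'
      have h6 := (mem_filter.1 (hS1 hH)).2
      have h6' := (mem_filter.1 (hS1 hH')).2
      funext z
      by_cases hz : z = x.1
      · rw [hz, h6, h6', h5 x.2 (by rw [mem_singleton]; exact hne.symm),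
          h5' x.2 (by rw [mem_singleton]; exact hne.symm)]
      · rw [h5 z (by rw [mem_singleton]; exact hz), h5' z (by rw [mem_singleton]; exact hz)])
    rw [card_singleton, pow_one, one_mul] at h3
    exact h3
  have h3 : ((P.filter (fun H => ¬ Function.Injective H)).card : ℝ) ≤
      ∑ x ∈ univ.filter (fun x : ι × ι => x.1 ≠ x.2), ((P.filter (fun H => H x.1 = H x.2)).card : ℝ) := by
    have := (card_le_card h1).trans card_biUnion_le
    exact_mod_cast this
  calc ((P.filter (fun H => ¬ Function.Injective H)).card : ℝ) * T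
      ≤ (∑ x ∈ univ.filter (fun x : ι × ι => x.1 ≠ x.2),
          ((P.filter (fun H => H x.1 = H x.2)).card : ℝ)) * T :=
        mul_le_mul_of_nonneg_right h3 (Nat.cast_nonneg _)
    _ = ∑ x ∈ univ.filter (fun x : ι × ι => x.1 ≠ x.2),
          ((P.filter (fun H => H x.1 = H x.2)).card : ℝ) * T := by rw [sum_mul]
    _ ≤ ∑ _x ∈ univ.filter (fun x : ι × ι => x.1 ≠ x.2), (T : ℝ) ^ (Fintype.card ι) := sum_le_sum h2
    _ ≤ _ := by
        rw [sum_const, nsmul_eq_mul]
        apply mul_le_mul_of_nonneg_right _ (by positivity)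
        have h4 : (univ.filter (fun x : ι × ι => x.1 ≠ x.2)).card ≤ Fintype.card ι ^ 2 := by
          refine (card_filter_le _ _).trans ?_
          rw [card_univ, Fintype.card_prod, sq]
        exact_mod_cast h4

/-- the group of a class -/
def grp {m : ℕ} (γ : Fin (4 * m)) : Fin 4 := (finProdFinEquiv.symm γ).1

theorem two_groups {m : ℕ} (S : Finset (Fin (4 * m))) (hS : m + 1 ≤ S.card) :
    ∃ γ₀ ∈ S, ∃ γ₁ ∈ S, grp γ₀ < grp γ₁ := by
  by_contra hcon
  push Not at hcon
  have h1 : S.card ≤ (univ : Finset (Fin m)).card := by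
    apply card_le_card_of_injOn (fun γ => (finProdFinEquiv.symm γ).2)
    · intro γ _
      exact mem_coe.2 (mem_univ _)
    · intro γ hγ γ' hγ' h
      have h2 : grp γ = grp γ' := le_antisymm (hcon γ' hγ' γ hγ) (hcon γ hγ γ' hγ')
      exact finProdFinEquiv.symm.injective (Prod.ext h2 h)
  rw [card_univ, Fintype.card_fin] at h1
  omega

theorem ext_tuple {n : ℕ} (k : ℕ) (S : Finset (Fin n)) (hS : k + 2 ≤ S.card) (a b : Fin n)
    (ha : a ∈ S) (hb : b ∈ S) (hab : a ≠ b) :
    ∃ g : Fin (k + 2) → Fin n, Function.Injective g ∧ (∀ i, g i ∈ S) ∧ g 0 = a ∧ g 1 = b := by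
  have h1 : k ≤ ((S.erase a).erase b).card := by
    rw [card_erase_of_mem (mem_erase.2 ⟨hab.symm, hb⟩), card_erase_of_mem ha]
    omega
  have h2 : ∀ i, ((S.erase a).erase b).orderEmbOfCardLe h1 i ∈ (S.erase a).erase b :=
    fun i => orderEmbOfCardLe_mem _ h1 i
  refine ⟨Fin.cons a (Fin.cons b (fun i => ((S.erase a).erase b).orderEmbOfCardLe h1 i)), ?_, ?_, ?_, ?_⟩
  · rw [Fin.cons_injective_iff, Fin.cons_injective_iff]
    refine ⟨?_, ?_, fun i j hij => ((S.erase a).erase b).orderEmbOfCardLe h1 |>.injective hij⟩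
    · rintro ⟨i, hi⟩
      revert hi
      refine Fin.cases ?_ (fun i => ?_) i
      · intro hi
        rw [Fin.cons_zero] at hi
        exact hab hi.symm
      · intro hi
        rw [Fin.cons_succ] at hi
        have h3 := mem_erase.1 (mem_erase.1 (h2 i)).2
        exact h3.1 hi
    · rintro ⟨i, hi⟩
      have h3 := mem_erase.1 (h2 i)
      exact h3.1 hi
  · intro i
    refine Fin.cases ?_ (fun i => ?_) i
    · rw [Fin.cons_zero]
      exact ha
    · rw [Fin.cons_succ]
      refine Fin.cases ?_ (fun i => ?_) i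
      · rw [Fin.cons_zero]
        exact hb
      · rw [Fin.cons_succ]
        exact (mem_erase.1 (mem_erase.1 (h2 i)).2).2
  · rfl
  · rfl

/-- the position of the form `z` -/
def pos {m K : ℕ} (M : ℕ) (r : Fin 4 → ℕ) (H : Fin (4 * m) × Fin K → ℕ) (z : Fin (4 * m) × Fin K) : ℕ :=
  r (grp z.1) + M * H z

/-- all differences between different groups are in `B` -/
def Fam {m K : ℕ} (M : ℕ) (B : Finset ℕ) (r : Fin 4 → ℕ) (H : Fin (4 * m) × Fin K → ℕ) : Prop :=
  ∀ z z' : Fin (4 * m) × Fin K, grp z.1 < grp z'.1 →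
    pos M r H z < pos M r H z' ∧ pos M r H z' - pos M r H z ∈ B

open Classical in
theorem fam_many (m K T M c : ℕ) (hmK : 1 ≤ m * K) (B : Finset ℕ) (r : Fin 4 → ℕ) (δ : ℝ) (hδ : 0 ≤ δ)
    (h : δ * (T : ℝ) ^ 4 ≤ (((Fintype.piFinset (fun _ : Fin 4 => range T)).filter
      (fun t => PP B c (fun g => r g + M * t g))).card : ℝ)) :
    δ ^ ((m * K) ^ 4) * (T : ℝ) ^ (4 * m * K) ≤
      (((Fintype.piFinset (fun _ : Fin (4 * m) × Fin K => range T)).filter
        (fun H => Fam M B r H)).card : ℝ) := by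
  have h1 := boxU (m * K) T hmK (fun t => PP B c (fun g => r g + M * t g)) δ hδ h
  have e : 4 * (m * K) = 4 * m * K := by ring
  rw [e] at h1
  refine h1.trans ?_
  rw [Nat.cast_le]
  set E : Fin (4 * m) × Fin K → Fin 4 × Fin (m * K) := fun z =>
    (grp z.1, finProdFinEquiv ((finProdFinEquiv.symm z.1).2, z.2)) with hE
  have hEs : Function.Surjective E := by
    rintro ⟨g, j⟩
    refine ⟨(finProdFinEquiv (g, (finProdFinEquiv.symm j).1), (finProdFinEquiv.symm j).2), ?_⟩
    rw [hE]
    unfold grp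
    simp only [Equiv.symm_apply_apply, Equiv.apply_symm_apply, Prod.mk.eta]
  apply card_le_card_of_injOn (fun H' => fun z => H' (E z))
  · intro H' hH'
    obtain ⟨h2, h3⟩ := mem_filter.1 (mem_coe.1 hH')
    refine mem_coe.2 (mem_filter.2 ⟨Fintype.mem_piFinset.2 fun z => Fintype.mem_piFinset.1 h2 (E z), ?_⟩)
    intro z z' hzz
    have h4 := (h3 (Function.update (fun _ => (E z).2) (grp z'.1) (E z').2)).1 (grp z.1) (grp z'.1) hzz
    simp only [Function.update_self, Function.update_of_ne hzz.ne] at h4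
    exact h4
  · intro H' _ H'' _ h4
    funext y
    obtain ⟨z, rfl⟩ := hEs y
    exact congrFun h4 z

end Pool.Agent.N646.TT
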