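import Pool.Agent.N646.TT.Cnt

/-! Project TT3: for one third of all even differences many extensions to `k`-tuples. -/

set_option autoImplicit false

namespace Pool.Agent.N646.TT

open Finset Filter Topology
open Pool.Agent.N646.RG
open Pool.Agent.TH899.UG.TD (QQ quad)

/-- the number of the primes `p ≤ x` for which `p + 2 d` and all `p + 2 t_i` are prime -/
def ptup {k : ℕ} (x d : ℕ) (t : Fin k → ℤ) : ℕ :=
  ((Icc 1 x).filter (fun p : ℕ => p.Prime ∧ (p + 2 * d).Prime ∧
    ∀ i, ((p : ℤ) + 2 * t i).toNat.Prime)).card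

open Classical in
/-- the good extensions of the pair `0, 2 d` -/
noncomputable def exts (k : ℕ) (κ : ℝ) (x H d : ℕ) : Finset (Fin k → ℤ) :=
  (Fintype.piFinset (fun _ : Fin k => Icc (-(H : ℤ)) H)).filter (fun t => Function.Injective t ∧
    (∀ i, t i ≠ 0 ∧ t i ≠ d) ∧ κ * (x / Real.log x ^ (k + 2)) ≤ (ptup x d t : ℝ))

theorem gdf_ptup {k : ℕ} {κ : ℝ} {x d A : ℕ} (F : Fin (k + 1 + 1) → ℤ × ℤ) (hG : Gdf κ x F)
    (t : Fin k → ℤ) (h0 : F 0 = (1, (A : ℤ))) (h1 : F 1 = (1, (A : ℤ) + 2 * d))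
    (ht : ∀ i : Fin k, F i.succ.succ = (1, (A : ℤ) + 2 * t i)) (h2 : ∀ n ∈ IN x, n + A ≤ x) :
    κ * (x / Real.log x ^ (k + 2)) ≤ (ptup x d t : ℝ) := by
  unfold Gdf at hG
  refine hG.trans ?_
  rw [Nat.cast_le]
  unfold ptup
  apply card_le_card_of_injOn (fun n : ℕ => n + A)
  · intro n hn
    rw [mem_coe, mem_filter] at hn
    have h3 := hn.2 0
    have h4 := hn.2 1
    rw [h0] at h3
    rw [h1] at h4
    have h5 := h2 n hn.1
    have e1 : (ev ((1 : ℤ), (A : ℤ)) n).toNat = n + A := by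
      show ((1 : ℤ) * (n : ℤ) + (A : ℤ)).toNat = n + A
      rw [one_mul]
      omega
    have e2 : (ev ((1 : ℤ), (A : ℤ) + 2 * d) n).toNat = n + A + 2 * d := by
      show ((1 : ℤ) * (n : ℤ) + ((A : ℤ) + 2 * d)).toNat = n + A + 2 * d
      rw [one_mul]
      omega
    rw [e1] at h3
    rw [e2] at h4
    refine mem_coe.2 (mem_filter.2 ⟨mem_Icc.2 ⟨h3.pos, h5⟩, h3, h4, fun i => ?_⟩)
    have h6 := hn.2 i.succ.succ
    rw [ht i] at h6
    have e3 : (ev ((1 : ℤ), (A : ℤ) + 2 * t i) n).toNat = (((n + A : ℕ) : ℤ) + 2 * t i).toNat := by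
      congr 1
      show (1 : ℤ) * (n : ℤ) + ((A : ℤ) + 2 * t i) = ((n + A : ℕ) : ℤ) + 2 * t i
      push_cast
      ring
    rw [e3] at h6
    exact h6
  · intro n _ n' _ he
    have he' : n + A = n' + A := he
    omega

theorem pos_inj {m K M : ℕ} (hM : 1 ≤ M) {B : Finset ℕ} {r : Fin 4 → ℕ}
    {H : Fin (4 * m) × Fin K → ℕ} (hF : Fam M B r H) (hi : Function.Injective H) :
    Function.Injective (pos M r H) := by
  intro z z' h
  rcases lt_trichotomy (grp z.1) (grp z'.1) with h1 | h1 | h1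
  · have := (hF z z' h1).1
    omega
  · unfold pos at h
    rw [h1] at h
    exact hi (Nat.eq_of_mul_eq_mul_left hM (Nat.add_left_cancel h))
  · have := (hF z' z h1).1
    omega

theorem pos_bd {m K M Hh : ℕ} {B : Finset ℕ} {r : Fin 4 → ℕ}
    (hB : ∀ d ∈ B, 1 ≤ d ∧ d ≤ Hh) {H : Fin (4 * m) × Fin K → ℕ} (hF : Fam M B r H)
    (z₀ z₁ z : Fin (4 * m) × Fin K) (h01 : grp z₀.1 < grp z₁.1) :
    -(Hh : ℤ) ≤ (pos M r H z : ℤ) - pos M r H z₀ ∧ (pos M r H z : ℤ) - pos M r H z₀ ≤ Hh := by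
  obtain ⟨a1, a2⟩ := hF z₀ z₁ h01
  have a3 := hB _ a2
  rcases lt_trichotomy (grp z₀.1) (grp z.1) with h1 | h1 | h1
  · obtain ⟨b1, b2⟩ := hF z₀ z h1
    have b3 := hB _ b2
    omega
  · obtain ⟨b1, b2⟩ := hF z z₁ (h1 ▸ h01)
    have b3 := hB _ b2
    omega
  · obtain ⟨b1, b2⟩ := hF z z₀ h1
    have b3 := hB _ b2
    omega

open Classical in
theorem key (m K T M k x Hh : ℕ) (B : Finset ℕ) (r : Fin 4 → ℕ) (κ n : ℝ) (hM : 1 ≤ M)
    (hr : ∀ g, r g < M) (hB : ∀ d ∈ B, 1 ≤ d ∧ d ≤ Hh)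
    (hBe : ∀ d ∈ B, ((exts k κ x Hh d).card : ℝ) ≤ n) (hn : 0 ≤ n)
    (hx : ∀ n ∈ IN x, n + 2 * (M + M * T) ≤ x)
    (g : Fin (k + 2) → Fin (4 * m)) (hg : Function.Injective g) (h01 : grp (g 0) < grp (g 1))
    (σ : Fin (4 * m) → Fin K) :
    (((Fintype.piFinset (fun _ : Fin (4 * m) × Fin K => range T)).filter
      (fun H => Fam M B r H ∧ Function.Injective H ∧
        Gdf (k := k + 1) κ x (fun i => sh ((1 : ℤ), ((2 * r (grp (g i)) : ℕ) : ℤ))
          (2 * M * H (g i, σ (g i)))))).card : ℝ) * (T : ℝ) ^ k ≤ n * (T : ℝ) ^ (4 * m * K) := by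
  set Y := (Fintype.piFinset (fun _ : Fin (4 * m) × Fin K => range T)).filter
      (fun H => Fam M B r H ∧ Function.Injective H ∧
        Gdf (k := k + 1) κ x (fun i => sh ((1 : ℤ), ((2 * r (grp (g i)) : ℕ) : ℤ))
          (2 * M * H (g i, σ (g i))))) with hY
  obtain ⟨zf, hzf⟩ : ∃ zf : Fin (k + 2) → Fin (4 * m) × Fin K, zf = fun i => (g i, σ (g i)) := ⟨_, rfl⟩
  have hzfi : Function.Injective zf := by
    intro i j hij
    rw [hzf] at hij
    exact hg (congrArg Prod.fst hij)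
  have hzf1 : ∀ i, (zf i).1 = g i := fun i => by rw [hzf]
  have hzf2 : ∀ i, zf i = (g i, σ (g i)) := fun i => by rw [hzf]
  have h2i : Function.Injective (fun i : Fin k => zf i.succ.succ) := by
    intro i j hij
    exact Fin.succ_injective _ (Fin.succ_injective _ (hzfi hij))
  obtain ⟨Z, hZ⟩ : ∃ Z, Z = (univ : Finset (Fin k)).image (fun i => zf i.succ.succ) := ⟨_, rfl⟩
  have hZc : Z.card = k := by
    rw [hZ, card_image_of_injective _ h2i, card_univ, Fintype.card_fin]
  have hz0 : zf 0 ∉ Z := by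
    rw [hZ, mem_image]
    rintro ⟨i, -, hi⟩
    exact (Fin.succ_ne_zero _) (hzfi hi)
  have hz1 : zf 1 ∉ Z := by
    rw [hZ, mem_image]
    rintro ⟨i, -, hi⟩
    have h2 : i.succ.succ = (0 : Fin (k + 1)).succ := hzfi hi
    exact (Fin.succ_ne_zero _) (Fin.succ_injective _ h2)
  have h01' : grp (zf 0).1 < grp (zf 1).1 := by
    rw [hzf1, hzf1]
    exact h01
  have hYs : Y ⊆ Fintype.piFinset (fun _ : Fin (4 * m) × Fin K => range T) := by
    intro H hH
    rw [hY] at hH
    exact (mem_filter.1 hH).1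
  have hmain := rest Z T Y hYs n (by
    intro H₀ _ S hS1 hS2
    rcases S.eq_empty_or_nonempty with he | ⟨H₁, hH₁⟩
    · rw [he, card_empty, Nat.cast_zero]
      exact hn
    have hpos : ∀ H ∈ S,
        pos M r H (zf 0) = pos M r H₀ (zf 0) ∧ pos M r H (zf 1) = pos M r H₀ (zf 1) := by
      intro H hH
      have h1 := hS2 H hH
      unfold pos
      rw [h1 _ hz0, h1 _ hz1]
      exact ⟨rfl, rfl⟩
    obtain ⟨d, hd⟩ : ∃ d, d = pos M r H₀ (zf 1) - pos M r H₀ (zf 0) := ⟨_, rfl⟩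
    have hdB : d ∈ B := by
      have h1 := hS1 hH₁
      rw [hY] at h1
      obtain ⟨-, h2, -⟩ := mem_filter.1 h1
      have h3 := (h2 (zf 0) (zf 1) h01').2
      rw [(hpos H₁ hH₁).1, (hpos H₁ hH₁).2, ← hd] at h3
      exact h3
    refine le_trans ?_ (hBe d hdB)
    rw [Nat.cast_le]
    apply card_le_card_of_injOn (fun H => fun i : Fin k =>
      (pos M r H (zf i.succ.succ) : ℤ) - pos M r H (zf 0))
    · intro H hH
      have hp := hpos H (mem_coe.1 hH)
      have h1 := hS1 (mem_coe.1 hH)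
      rw [hY] at h1
      obtain ⟨h2, h3, h4, h5⟩ := mem_filter.1 h1
      have hpi := pos_inj hM h3 h4
      have hlt := (h3 (zf 0) (zf 1) h01').1
      have hdd : (d : ℤ) = (pos M r H (zf 1) : ℤ) - pos M r H (zf 0) := by
        rw [hd, ← hp.1, ← hp.2]
        omega
      refine mem_coe.2 (mem_filter.2 ⟨Fintype.mem_piFinset.2 fun i => mem_Icc.2
        (pos_bd hB h3 (zf 0) (zf 1) (zf i.succ.succ) h01'), ?_, ?_, ?_⟩)
      · intro i j hij
        have h6 : (pos M r H (zf i.succ.succ) : ℤ) - pos M r H (zf 0) =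
          (pos M r H (zf j.succ.succ) : ℤ) - pos M r H (zf 0) := hij
        have h7 : pos M r H (zf i.succ.succ) = pos M r H (zf j.succ.succ) := by omega
        exact h2i (hpi h7)
      · intro i
        refine ⟨fun h6 => ?_, fun h6 => ?_⟩
        · have h7 : (pos M r H (zf i.succ.succ) : ℤ) - pos M r H (zf 0) = 0 := h6
          have h8 : pos M r H (zf i.succ.succ) = pos M r H (zf 0) := by omega
          exact (Fin.succ_ne_zero _) (hzfi (hpi h8))
        · have h7 : (pos M r H (zf i.succ.succ) : ℤ) - pos M r H (zf 0) = d := h6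
          have h8 : pos M r H (zf i.succ.succ) = pos M r H (zf 1) := by omega
          have h9 : i.succ.succ = (0 : Fin (k + 1)).succ := hzfi (hpi h8)
          exact (Fin.succ_ne_zero _) (Fin.succ_injective _ h9)
      · have hF : ∀ i, sh ((1 : ℤ), ((2 * r (grp (g i)) : ℕ) : ℤ)) (2 * M * H (g i, σ (g i))) =
            (1, ((2 * pos M r H (zf i) : ℕ) : ℤ)) := by
          intro i
          unfold sh pos
          rw [hzf2]
          refine Prod.ext rfl ?_
          push_cast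
          ring
        refine gdf_ptup (A := 2 * pos M r H (zf 0)) _ h5 _ ?_ ?_ ?_ ?_
        · exact hF 0
        · refine (hF 1).trans (Prod.ext rfl ?_)
          show ((2 * pos M r H (zf 1) : ℕ) : ℤ) = ((2 * pos M r H (zf 0) : ℕ) : ℤ) + 2 * (d : ℤ)
          rw [hdd]
          push_cast
          ring
        · intro i
          refine (hF i.succ.succ).trans (Prod.ext rfl ?_)
          show ((2 * pos M r H (zf i.succ.succ) : ℕ) : ℤ) = ((2 * pos M r H (zf 0) : ℕ) : ℤ) +
            2 * ((pos M r H (zf i.succ.succ) : ℤ) - pos M r H (zf 0))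
          push_cast
          ring
        · intro n hn'
          have h6 := hx n hn'
          have h7 : pos M r H (zf 0) ≤ M + M * T := by
            unfold pos
            have h8 := hr (grp (zf 0).1)
            have h9 : M * H (zf 0) ≤ M * T :=
              Nat.mul_le_mul_left _ (mem_range.1 (Fintype.mem_piFinset.1 h2 (zf 0))).le
            omega
          omega
    · intro H hH H' hH' hHH
      have h2 := hS2 H (mem_coe.1 hH)
      have h2' := hS2 H' (mem_coe.1 hH')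
      have hp := hpos H (mem_coe.1 hH)
      have hp' := hpos H' (mem_coe.1 hH')
      funext z
      by_cases hz : z ∈ Z
      · rw [hZ] at hz
        obtain ⟨i, -, hi⟩ := mem_image.1 hz
        have h3 : (pos M r H (zf i.succ.succ) : ℤ) - pos M r H (zf 0) =
          (pos M r H' (zf i.succ.succ) : ℤ) - pos M r H' (zf 0) := congrFun hHH i
        rw [hp.1, hp'.1] at h3
        have h4 : pos M r H (zf i.succ.succ) = pos M r H' (zf i.succ.succ) := by omega
        unfold pos at h4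
        rw [hi] at h4
        exact Nat.eq_of_mul_eq_mul_left hM (Nat.add_left_cancel h4)
      · rw [h2 z hz, h2' z hz])
  rw [hZc, Fintype.card_prod, Fintype.card_fin, Fintype.card_fin] at hmain
  exact hmain

end Pool.Agent.N646.TT
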