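import Mathlib

/-! Project TT: the singular series is bounded for almost all differences. -/

set_option autoImplicit false

namespace Pool.Agent.N646.TT

open Finset Filter Topology

/-- the product of `(p - 1) / (p - 2)` over the odd prime factors of `d` -/
noncomputable def gg (d : ℕ) : ℝ :=
  ∏ p ∈ d.primeFactors.filter (fun p : ℕ => 2 < p), (((p : ℝ) - 1) / ((p : ℝ) - 2))

/-- the sum of `1 / (p - 2)` over the odd prime factors of `k` -/
noncomputable def hh (k : ℕ) : ℝ :=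
  ∑ p ∈ k.primeFactors.filter (fun p : ℕ => 2 < p), 1 / ((p : ℝ) - 2)

theorem fac_ge {p : ℕ} (hp : 2 < p) : 1 ≤ ((p : ℝ) - 1) / ((p : ℝ) - 2) := by
  have h1 : (3 : ℝ) ≤ p := by exact_mod_cast hp
  rw [le_div_iff₀ (by linarith)]
  linarith

theorem gg_nonneg (d : ℕ) : 0 ≤ gg d :=
  prod_nonneg fun p hp => zero_le_one.trans (fac_ge (mem_filter.1 hp).2)

theorem gg_le_exp (k : ℕ) : gg k ≤ Real.exp (hh k) := by
  unfold gg hh
  rw [Real.exp_sum]
  apply Finset.prod_le_prod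
  · intro p hp
    exact zero_le_one.trans (fac_ge (mem_filter.1 hp).2)
  · intro p hp
    have h2 := (mem_filter.1 hp).2
    have h1 : (3 : ℝ) ≤ p := by exact_mod_cast h2
    have h3 : ((p : ℝ) - 1) / ((p : ℝ) - 2) = 1 / ((p : ℝ) - 2) + 1 := by
      have : (p : ℝ) - 2 ≠ 0 := by linarith
      field_simp
      ring
    rw [h3]
    exact Real.add_one_le_exp _

theorem hh_nonneg (k : ℕ) : 0 ≤ hh k :=
  sum_nonneg fun p hp => by
    have h1 : (3 : ℝ) ≤ p := by exact_mod_cast (mem_filter.1 hp).2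
    have : 0 < (p : ℝ) - 2 := by linarith
    positivity

theorem tele (H : ℕ) : ∑ n ∈ Icc 3 H, 1 / ((n : ℝ) * ((n : ℝ) - 2)) ≤ 1 := by
  have h : ∀ m : ℕ, ∑ n ∈ Icc 3 (m + 2), 1 / ((n : ℝ) * ((n : ℝ) - 2)) =
      3 / 4 - 1 / 2 * (1 / ((m : ℝ) + 1) + 1 / ((m : ℝ) + 2)) := by
    intro m
    induction m with
    | zero =>
      rw [Icc_eq_empty (by norm_num), sum_empty]
      norm_num
    | succ m ih =>
      have e : m + 1 + 2 = (m + 2) + 1 := by ring
      rw [e, sum_Icc_succ_top (by omega), ih]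
      push_cast
      have h1 : (m : ℝ) + 1 ≠ 0 := by positivity
      have h2 : (m : ℝ) + 2 ≠ 0 := by positivity
      have h3 : (m : ℝ) + 2 + 1 ≠ 0 := by positivity
      have h4 : (m : ℝ) + 2 + 1 - 2 = m + 1 := by ring
      have h5 : (m : ℝ) + 1 + 1 = m + 2 := by ring
      have h6 : (m : ℝ) + 1 + 2 = m + 2 + 1 := by ring
      rw [h4, h5, h6]
      field_simp
      ring
  by_cases hH : 2 ≤ H
  · obtain ⟨m, rfl⟩ : ∃ m, H = m + 2 := ⟨H - 2, by omega⟩
    rw [h m]
    have : 0 ≤ 1 / 2 * (1 / ((m : ℝ) + 1) + 1 / ((m : ℝ) + 2)) := by positivity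
    linarith
  · rw [Icc_eq_empty (by omega), sum_empty]
    norm_num

theorem sum_hh (H : ℕ) : ∑ k ∈ Icc 1 H, hh k ≤ H := by
  have h1 : ∀ k ∈ Icc 1 H, hh k ≤ ∑ p ∈ Icc 3 H, if p ∣ k then 1 / ((p : ℝ) - 2) else 0 := by
    intro k hk
    have hk' := mem_Icc.1 hk
    rw [← sum_filter]
    unfold hh
    apply sum_le_sum_of_subset_of_nonneg
    · intro p hp
      obtain ⟨hp1, hp2⟩ := mem_filter.1 hp
      have hp3 := Nat.dvd_of_mem_primeFactors hp1
      exact mem_filter.2 ⟨mem_Icc.2 ⟨hp2, (Nat.le_of_dvd (by omega) hp3).trans hk'.2⟩, hp3⟩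
    · intro p hp _
      have h1 : (3 : ℝ) ≤ p := by exact_mod_cast (mem_Icc.1 (mem_filter.1 hp).1).1
      have : 0 < (p : ℝ) - 2 := by linarith
      positivity
  refine (sum_le_sum h1).trans ?_
  rw [sum_comm]
  have h2 : ∀ p ∈ Icc 3 H, (∑ k ∈ Icc 1 H, if p ∣ k then 1 / ((p : ℝ) - 2) else 0) ≤
      H * (1 / ((p : ℝ) * ((p : ℝ) - 2))) := by
    intro p hp
    have h3 : (3 : ℝ) ≤ p := by exact_mod_cast (mem_Icc.1 hp).1
    rw [← sum_filter, sum_const, nsmul_eq_mul]
    have h4 : ((Icc 1 H).filter (fun k => p ∣ k)).card = H / p := by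
      have := Nat.Ioc_filter_dvd_card_eq_div H p
      exact this
    rw [h4]
    have h5 : ((H / p : ℕ) : ℝ) ≤ (H : ℝ) / p := Nat.cast_div_le
    have h6 : 0 ≤ 1 / ((p : ℝ) - 2) := by
      have : 0 < (p : ℝ) - 2 := by linarith
      positivity
    calc ((H / p : ℕ) : ℝ) * (1 / ((p : ℝ) - 2)) ≤ ((H : ℝ) / p) * (1 / ((p : ℝ) - 2)) :=
          mul_le_mul_of_nonneg_right h5 h6
      _ = H * (1 / ((p : ℝ) * ((p : ℝ) - 2))) := by
          rw [div_mul_div_comm, mul_one_div, mul_one]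
  refine (sum_le_sum h2).trans ?_
  rw [← mul_sum]
  have h3 := tele H
  have h4 : (0 : ℝ) ≤ H := Nat.cast_nonneg _
  nlinarith

open Classical in
/-- the singular series is large for few numbers -/
theorem few (A : ℝ) (H : ℕ) :
    A * (((Icc 1 H).filter (fun k => Real.exp A < gg k)).card : ℝ) ≤ H := by
  refine le_trans ?_ (sum_hh H)
  calc A * (((Icc 1 H).filter (fun k => Real.exp A < gg k)).card : ℝ)
      = ∑ _k ∈ (Icc 1 H).filter (fun k => Real.exp A < gg k), A := by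
        rw [sum_const, nsmul_eq_mul, mul_comm]
    _ ≤ ∑ k ∈ (Icc 1 H).filter (fun k => Real.exp A < gg k), hh k := by
        refine sum_le_sum fun k hk => ?_
        have h1 := (mem_filter.1 hk).2
        have h2 := h1.trans_le (gg_le_exp k)
        exact (Real.exp_lt_exp.1 h2).le
    _ ≤ _ := sum_le_sum_of_subset_of_nonneg (filter_subset _ _) fun k _ _ => hh_nonneg k

theorem gg_mul (b k : ℕ) (hb : b ≠ 0) (hk : k ≠ 0) : gg (2 * b * k) ≤ gg b * gg k := by
  have h1 : (2 * b * k).primeFactors.filter (fun p : ℕ => 2 < p) =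
      b.primeFactors.filter (fun p : ℕ => 2 < p) ∪ k.primeFactors.filter (fun p : ℕ => 2 < p) := by
    rw [Nat.primeFactors_mul (by positivity) hk, Nat.primeFactors_mul (by norm_num) hb]
    ext p
    simp only [mem_filter, mem_union, Nat.Prime.primeFactors Nat.prime_two, mem_singleton]
    constructor
    · rintro ⟨(h | h) | h, h2⟩
      · omega
      · exact Or.inl ⟨h, h2⟩
      · exact Or.inr ⟨h, h2⟩
    · rintro (⟨h, h2⟩ | ⟨h, h2⟩)
      · exact ⟨Or.inl (Or.inr h), h2⟩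
      · exact ⟨Or.inr h, h2⟩
  unfold gg
  rw [h1, ← prod_union_inter]
  have h2 : (1 : ℝ) ≤ ∏ p ∈ b.primeFactors.filter (fun p : ℕ => 2 < p) ∩
      k.primeFactors.filter (fun p : ℕ => 2 < p), (((p : ℝ) - 1) / ((p : ℝ) - 2)) := by
    have h4 := Finset.prod_le_prod (s := b.primeFactors.filter (fun p : ℕ => 2 < p) ∩
      k.primeFactors.filter (fun p : ℕ => 2 < p)) (f := fun _ => (1 : ℝ))
      (g := fun p : ℕ => (((p : ℝ) - 1) / ((p : ℝ) - 2))) (fun _ _ => zero_le_one)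
      (fun p hp => fac_ge (mem_filter.1 (mem_inter.1 hp).1).2)
    rw [prod_const_one] at h4
    exact h4
  have h3 : (0 : ℝ) ≤ ∏ p ∈ b.primeFactors.filter (fun p : ℕ => 2 < p) ∪
      k.primeFactors.filter (fun p : ℕ => 2 < p), (((p : ℝ) - 1) / ((p : ℝ) - 2)) := by
    apply prod_nonneg
    intro p hp
    rcases mem_union.1 hp with h | h
    · exact zero_le_one.trans (fac_ge (mem_filter.1 h).2)
    · exact zero_le_one.trans (fac_ge (mem_filter.1 h).2)
  exact le_mul_of_one_le_right h3 h2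

end Pool.Agent.N646.TT
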