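import Pool.Agent.N646.TT.Main
import Pool.Agent.N646.TT.Few

/-! Project TT: the final form, with the singular series. -/

set_option autoImplicit false

namespace Pool.Agent.N646.TT

open Finset Filter Topology

open Classical in
/-- **one third of the multiples of `2 b`**, with the singular series (`c` is `2 C₂`) -/
theorem fin (c : ℝ) (b : ℕ) (hb : 1 ≤ b) (ε lam : ℝ) (hε : 0 < ε) (hlam : 0 < lam) : ∃ κ : ℝ, 0 < κ ∧
    ∃ X : ℝ, ∀ x : ℝ, X ≤ x → ∀ H : ℕ, lam * Real.log x ≤ H → 100 * b * (H : ℝ) ≤ x →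
    (1 / 3 - ε) * (H : ℝ) ≤
      (((Icc 1 H).filter (fun k : ℕ => κ * (c * gg (2 * b * k) * x / Real.log x ^ 2) ≤
        (pi2 ⌊x⌋₊ (2 * b * k) : ℝ))).card : ℝ) := by
  obtain ⟨κ, hκ, hev⟩ := main b hb (ε / 2) lam (by positivity) hlam
  obtain ⟨N₀, hN₀⟩ := eventually_atTop.1 hev
  obtain ⟨A, hA⟩ : ∃ A, A = 2 / ε := ⟨_, rfl⟩
  have hA0 : 0 < A := by rw [hA]; positivity
  obtain ⟨D, hD⟩ : ∃ D, D = 2 * ((|c| + 1) * (gg b + 1) * Real.exp A) := ⟨_, rfl⟩
  have hgb := gg_nonneg b
  have hD0 : 0 < D := by rw [hD]; positivity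
  refine ⟨κ / D, by positivity, (N₀ : ℝ) + 3, fun x hx H hH hHx => ?_⟩
  obtain ⟨n, hn⟩ : ∃ n, n = ⌊x⌋₊ := ⟨_, rfl⟩
  have hx0 : (0 : ℝ) ≤ x := by
    have : (0 : ℝ) ≤ N₀ := Nat.cast_nonneg _
    linarith
  have hnx : (n : ℝ) ≤ x := by rw [hn]; exact Nat.floor_le hx0
  have hxn : x < n + 1 := by rw [hn]; exact Nat.lt_floor_add_one _
  have hn3 : N₀ + 3 ≤ n := by
    rw [hn]
    apply Nat.le_floor
    push_cast
    exact hx
  have hn3R : (3 : ℝ) ≤ n := by exact_mod_cast (by omega : 3 ≤ n)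
  have hln : 0 < Real.log n := Real.log_pos (by linarith)
  have hlnx : Real.log n ≤ Real.log x := Real.log_le_log (by linarith) hnx
  have h1 := hN₀ n (by omega) H ((mul_le_mul_of_nonneg_left hlnx hlam.le).trans hH) (by
    rw [hn]
    apply Nat.le_floor
    push_cast
    rw [← mul_assoc]
    exact hHx)
  have h2 := few A H
  obtain ⟨E, hE⟩ : ∃ E, E = (Icc 1 H).filter (fun k => Real.exp A < gg k) := ⟨_, rfl⟩
  rw [← hE] at h2
  have hH0 : (0 : ℝ) ≤ H := Nat.cast_nonneg _
  have h3 : (E.card : ℝ) ≤ ε / 2 * H := by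
    have h4 : (E.card : ℝ) = (ε / 2) * (A * E.card) := by
      rw [hA]
      field_simp
    rw [h4]
    exact mul_le_mul_of_nonneg_left h2 (by positivity)
  have h4 : (Icc 1 H).filter (fun k : ℕ => κ * (n / Real.log n ^ 2) ≤ (pi2 n (2 * b * k) : ℝ)) ⊆
      ((Icc 1 H).filter (fun k : ℕ => κ / D * (c * gg (2 * b * k) * x / Real.log x ^ 2) ≤
        (pi2 ⌊x⌋₊ (2 * b * k) : ℝ))) ∪ E := by
    intro k hk
    obtain ⟨hk1, hk2⟩ := mem_filter.1 hk
    by_cases hkE : k ∈ E
    · exact mem_union_right _ hkE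
    · apply mem_union_left
      refine mem_filter.2 ⟨hk1, ?_⟩
      rw [← hn]
      refine le_trans ?_ hk2
      have hgk : gg k ≤ Real.exp A := by
        by_contra h
        push Not at h
        apply hkE
        rw [hE]
        exact mem_filter.2 ⟨hk1, h⟩
      have hk0 : k ≠ 0 := by
        have := (mem_Icc.1 hk1).1
        omega
      have h5 : gg (2 * b * k) ≤ gg b * Real.exp A :=
        (gg_mul b k (by omega) hk0).trans (mul_le_mul_of_nonneg_left hgk hgb)
      have h6 : c * gg (2 * b * k) ≤ (|c| + 1) * ((gg b + 1) * Real.exp A) := by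
        have h7 : c * gg (2 * b * k) ≤ |c| * gg (2 * b * k) :=
          mul_le_mul_of_nonneg_right (le_abs_self c) (gg_nonneg _)
        have h8 : gg b * Real.exp A ≤ (gg b + 1) * Real.exp A := by
          have := Real.exp_pos A
          nlinarith
        have h9 : (0 : ℝ) ≤ |c| := abs_nonneg c
        have h10 : 0 ≤ (gg b + 1) * Real.exp A := by positivity
        calc c * gg (2 * b * k) ≤ |c| * gg (2 * b * k) := h7
          _ ≤ |c| * ((gg b + 1) * Real.exp A) := mul_le_mul_of_nonneg_left (h5.trans h8) h9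
          _ ≤ _ := by nlinarith
      have hx2 : x ≤ 2 * n := by linarith
      have h7 : x / Real.log x ^ 2 ≤ 2 * (n / Real.log n ^ 2) := by
        rw [← mul_div_assoc]
        apply div_le_div₀ (by linarith) hx2 (by positivity)
        exact pow_le_pow_left₀ hln.le hlnx 2
      have h8 : 0 ≤ x / Real.log x ^ 2 := by positivity
      have h9 : 0 ≤ (|c| + 1) * ((gg b + 1) * Real.exp A) := by positivity
      calc κ / D * (c * gg (2 * b * k) * x / Real.log x ^ 2)
          = κ / D * ((c * gg (2 * b * k)) * (x / Real.log x ^ 2)) := by ring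
        _ ≤ κ / D * (((|c| + 1) * ((gg b + 1) * Real.exp A)) * (2 * (n / Real.log n ^ 2))) := by
            apply mul_le_mul_of_nonneg_left _ (by positivity)
            exact mul_le_mul h6 h7 h8 h9
        _ = κ * (n / Real.log n ^ 2) := by
            have hD' : ((|c| + 1) * ((gg b + 1) * Real.exp A)) * (2 * (n / Real.log n ^ 2)) =
                D * (n / Real.log n ^ 2) := by
              rw [hD]
              ring
            rw [hD']
            field_simp
  have h5 : ((((Icc 1 H).filter (fun k : ℕ => κ * (n / Real.log n ^ 2) ≤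
      (pi2 n (2 * b * k) : ℝ))).card : ℕ) : ℝ) ≤
      (((Icc 1 H).filter (fun k : ℕ => κ / D * (c * gg (2 * b * k) * x / Real.log x ^ 2) ≤
        (pi2 ⌊x⌋₊ (2 * b * k) : ℝ))).card : ℝ) + E.card := by
    exact_mod_cast (card_le_card h4).trans (card_union_le _ _)
  nlinarith

end Pool.Agent.N646.TT
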