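import Pool.Agent.N646.TT.Ext

/-! Project TT3: assembly. -/

set_option autoImplicit false

namespace Pool.Agent.N646.TT

open Finset Filter Topology
open Pool.Agent.N646.RG
open Pool.Agent.TH899.UG.TD (QQ quad)

open Classical in
/-- for one third of the even differences a positive proportion of the extensions has the right order -/
theorem third_ext (k : ℕ) (ε : ℝ) (hε : 0 < ε) : ∃ c : ℝ, 0 < c ∧ ∀ lam : ℝ, 0 < lam →
    ∃ κ : ℝ, 0 < κ ∧ ∀ᶠ x : ℕ in atTop, ∀ H : ℕ, lam * Real.log x ≤ H → 100 * H ≤ x →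
    (1 / 3 - ε) * (H : ℝ) ≤
      (((Icc 1 H).filter (fun d : ℕ => c * (H : ℝ) ^ k ≤ ((exts k κ x H d).card : ℝ))).card : ℝ) := by
  obtain ⟨K, hK, H0⟩ := sHITM2 (k + 1) (4 * (k + 1)) (k + 1) (by omega) (by
    push_cast
    have : (0 : ℝ) ≤ k := Nat.cast_nonneg _
    linarith)
  obtain ⟨M, hM⟩ : ∃ M, M = (4 * (k + 1) * K).factorial := ⟨_, rfl⟩
  have hM0 : 1 ≤ M := by rw [hM]; exact Nat.factorial_pos _
  have hM0R : (1 : ℝ) ≤ M := by exact_mod_cast hM0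
  obtain ⟨e, he⟩ : ∃ e, e = min ε 1 := ⟨_, rfl⟩
  have he0 : 0 < e := by rw [he]; positivity
  have he1 : e ≤ 1 := by rw [he]; exact min_le_right _ _
  have heε : e ≤ ε := by rw [he]; exact min_le_left _ _
  obtain ⟨ε₂, hε₂⟩ : ∃ ε₂ : ℝ, ε₂ = (e / 16) ^ 3 / 625 := ⟨_, rfl⟩
  have hε₂0 : 0 < ε₂ := by rw [hε₂]; positivity
  obtain ⟨δ, hδ⟩ : ∃ δ : ℝ, δ = ε₂ / 16 := ⟨_, rfl⟩
  have hδ0 : 0 < δ := by rw [hδ]; positivity
  obtain ⟨δ₁, hδ₁⟩ : ∃ δ₁ : ℝ, δ₁ = δ ^ (((k + 1) * K) ^ 4) := ⟨_, rfl⟩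
  have hδ₁0 : 0 < δ₁ := by rw [hδ₁]; positivity
  obtain ⟨nn, hnn⟩ : ∃ nn : ℕ, nn = 4 * (k + 1) * K := ⟨_, rfl⟩
  obtain ⟨Nn, hNn⟩ : ∃ Nn : ℝ, Nn = (Fintype.card ((Fin (k + 2) → Fin (4 * (k + 1))) ×
    (Fin (4 * (k + 1)) → Fin K)) : ℝ) + 1 := ⟨_, rfl⟩
  have hNn0 : 0 < Nn := by rw [hNn]; positivity
  obtain ⟨c, hc⟩ : ∃ c : ℝ, c = δ₁ / (4 * Nn * (M : ℝ) ^ k) := ⟨_, rfl⟩
  have hc0 : 0 < c := by rw [hc]; positivity
  refine ⟨c, hc0, fun lam hlam => ?_⟩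
  obtain ⟨κ, hκ, H1⟩ := H0 (2 * M) (by omega) (5 * lam / M) (δ₁ / 4) (by positivity) (by positivity)
  refine ⟨κ, hκ, ?_⟩
  have hlog : Tendsto (fun x : ℕ => lam * Real.log (x : ℝ)) atTop atTop :=
    (Real.tendsto_log_atTop.comp tendsto_natCast_atTop_atTop).const_mul_atTop hlam
  filter_upwards [H1, hlog.eventually_ge_atTop (16 / e + M + M * (4 * (nn : ℝ) ^ 2 / δ₁)),
    eventually_ge_atTop (100 * M + 100)] with x hx hxl hxb H hH hHx
  by_contra hcon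
  push Not at hcon
  obtain ⟨B, hBdef⟩ : ∃ B, B = (Icc 1 H).filter
      (fun d : ℕ => ¬ c * (H : ℝ) ^ k ≤ ((exts k κ x H d).card : ℝ)) := ⟨_, rfl⟩
  have hsum : ((Icc 1 H).filter
      (fun d : ℕ => c * (H : ℝ) ^ k ≤ ((exts k κ x H d).card : ℝ))).card + B.card = H := by
    rw [hBdef, card_filter_add_card_filter_not, Nat.card_Icc, Nat.add_sub_cancel]
  have hBI : B ⊆ Icc 1 H := by rw [hBdef]; exact filter_subset _ _
  have hsumr : ((((Icc 1 H).filter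
      (fun d : ℕ => c * (H : ℝ) ^ k ≤ ((exts k κ x H d).card : ℝ))).card : ℕ) : ℝ) +
      (B.card : ℝ) = H := by exact_mod_cast hsum
  have hH0 : (0 : ℝ) ≤ H := Nat.cast_nonneg _
  have hBr : (2 / 3 + e) * (H : ℝ) ≤ B.card := by nlinarith
  have h16e : 0 < 16 / e := by positivity
  have hM4 : 0 ≤ M * (4 * (nn : ℝ) ^ 2 / δ₁) := by positivity
  have hHbig : 16 / e + M + M * (4 * (nn : ℝ) ^ 2 / δ₁) ≤ (H : ℝ) := hxl.trans hH
  have hHM : M ≤ H := by
    have : (M : ℝ) ≤ H := by linarith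
    exact_mod_cast this
  have heH : 16 ≤ e * H := by
    have h1 : 16 / e ≤ (H : ℝ) := by linarith
    rw [div_le_iff₀ he0] at h1
    linarith
  obtain ⟨R, hR⟩ : ∃ R, R = ⌊e * H / 8⌋₊ := ⟨_, rfl⟩
  have hRu : (R : ℝ) ≤ e * H / 8 := by rw [hR]; exact Nat.floor_le (by positivity)
  have hRl : e * H / 16 ≤ (R : ℝ) := by
    have h1 : e * H / 8 < (R : ℝ) + 1 := by rw [hR]; exact Nat.lt_floor_add_one _
    linarith
  have hR1 : 1 ≤ R := by
    have h1 : (1 : ℝ) ≤ R := by linarith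
    exact_mod_cast h1
  obtain ⟨c₃, hc₃, hq'⟩ := quad H R R hR1 B hBI (by
    have h1 : (2 * H + 9 * R + 3 * R + 20 : ℝ) ≤ 3 * B.card := by nlinarith
    exact_mod_cast h1)
  have hcount : ε₂ * (5 * (H : ℝ)) ^ 4 ≤
      (((Fintype.piFinset (fun _ : Fin 4 => range (5 * H))).filter (fun f => PP B c₃ f)).card : ℝ) := by
    have h2 : (H : ℝ) * (QQ H B c₃).card ≤
      (((Fintype.piFinset (fun _ : Fin 4 => range (5 * H))).filter (fun f => PP B c₃ f)).card : ℝ) := by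
      exact_mod_cast emb H c₃ B
    refine le_trans ?_ h2
    have h3 : (R : ℝ) * (R * R) ≤ (QQ H B c₃).card := by exact_mod_cast hq'
    have h4 : (e * H / 16) ^ 3 ≤ (R : ℝ) ^ 3 := by gcongr
    have h5 : (R : ℝ) ^ 3 = R * (R * R) := by ring
    have h6 : ε₂ * (5 * (H : ℝ)) ^ 4 = H * (e * H / 16) ^ 3 := by rw [hε₂]; ring
    rw [h6]
    exact mul_le_mul_of_nonneg_left (by linarith) hH0
  obtain ⟨T, hT⟩ : ∃ T, T = 5 * H / M + 1 := ⟨_, rfl⟩
  have hT1 : 1 ≤ T := by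
    rw [hT]
    exact Nat.le_add_left 1 _
  have hMT : 5 * H ≤ M * T := by
    rw [hT]
    exact (Nat.lt_mul_div_succ _ (by omega)).le
  have hMT2 : M * T ≤ 5 * H + M := by
    rw [hT, mul_add, mul_one]
    have := Nat.mul_div_le (5 * H) M
    omega
  obtain ⟨r, hr1, hr2⟩ := residues H M T hM0 hMT (PP B c₃)
  have hdens : δ * (T : ℝ) ^ 4 ≤ (((Fintype.piFinset (fun _ : Fin 4 => range T)).filter
      (fun t => PP B c₃ (fun g => r g + M * t g))).card : ℝ) := by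
    have h1 : ε₂ * (5 * (H : ℝ)) ^ 4 ≤ (M : ℝ) ^ 4 *
        (((Fintype.piFinset (fun _ : Fin 4 => range T)).filter
          (fun t => PP B c₃ (fun g => r g + M * t g))).card : ℝ) := by
      refine hcount.trans ?_
      exact_mod_cast hr2
    have h2 : (M : ℝ) * T ≤ 2 * (5 * (H : ℝ)) := by
      have : M * T ≤ 2 * (5 * H) := by omega
      exact_mod_cast this
    have h3 : ((M : ℝ) * T) ^ 4 ≤ (2 * (5 * (H : ℝ))) ^ 4 := pow_le_pow_left₀ (by positivity) h2 4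
    have h4 : (M : ℝ) ^ 4 * (δ * (T : ℝ) ^ 4) ≤ ε₂ * (5 * (H : ℝ)) ^ 4 := by
      calc (M : ℝ) ^ 4 * (δ * (T : ℝ) ^ 4) = δ * ((M : ℝ) * T) ^ 4 := by ring
        _ ≤ δ * (2 * (5 * (H : ℝ))) ^ 4 := mul_le_mul_of_nonneg_left h3 hδ0.le
        _ = _ := by rw [hδ]; ring
    exact le_of_mul_le_mul_left (h4.trans h1) (by positivity)
  have hbox := fam_many (k + 1) K T M c₃ (Nat.mul_pos (by omega) hK) B r δ hδ0.le hdens
  rw [← hδ₁, ← hnn] at hbox
  have hTR : (1 : ℝ) ≤ T := by exact_mod_cast hT1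
  have hrange : 2 * (2 * M * T) ≤ x := by
    have h1 : 2 * (2 * M * T) = 4 * (M * T) := by ring
    omega
  have hval : ∀ g t, t ≤ T → 2 * (r g + M * t) ≤ 10 * H + 4 * M := by
    intro g t ht
    have := hr1 g
    have h2 : M * t ≤ M * T := Nat.mul_le_mul_left _ ht
    omega
  have hbad := hx T (by
    have h1 : (5 * lam / M) * Real.log x = 5 * (lam * Real.log x) / M := by ring
    rw [h1, div_le_iff₀ (by linarith)]
    have h2 : 5 * (lam * Real.log x) ≤ 5 * (H : ℝ) := by linarith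
    refine h2.trans ?_
    have h3 : (5 : ℝ) * H ≤ M * T := by exact_mod_cast hMT
    linarith) hrange (fun y => ((1 : ℤ), ((2 * r (grp y.1) : ℕ) : ℤ))) (by
    intro y t ht
    have h1 := hval (grp y.1) t ht
    have e1 : ((2 * r (grp y.1) : ℕ) : ℤ) + ((2 * M * t : ℕ) : ℤ) =
        ((2 * (r (grp y.1) + M * t) : ℕ) : ℤ) := by
      push_cast
      ring
    refine ⟨Or.inl rfl, ?_, ?_⟩
    · show 10 * |((2 * r (grp y.1) : ℕ) : ℤ) + ((2 * M * t : ℕ) : ℤ)| ≤ 9 * x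
      rw [e1, abs_of_nonneg (by positivity)]
      have h4 : 10 * (2 * (r (grp y.1) + M * t)) ≤ 9 * x := by
        generalize 2 * (r (grp y.1) + M * t) = z at h1
        omega
      exact_mod_cast h4
    · intro s hs1 _
      show (x : ℝ) / 20 ≤ ((1 : ℤ) : ℝ) * s +
        ((((2 * r (grp y.1) : ℕ) : ℤ) + ((2 * M * t : ℕ) : ℤ) : ℤ) : ℝ)
      have h4 : (0 : ℝ) ≤ ((((2 * r (grp y.1) : ℕ) : ℤ) + ((2 * M * t : ℕ) : ℤ) : ℤ) : ℝ) := by
        positivity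
      have h5 : (0 : ℝ) ≤ x := Nat.cast_nonneg _
      rw [Int.cast_one, one_mul]
      linarith) (by
    intro p hp hpK
    have hpM : p ∣ M := by rw [hM]; exact (hp.dvd_factorial).2 hpK
    refine ⟨dvd_mul_of_dvd_right hpM _, ?_⟩
    have hne : ((Fintype.piFinset (fun _ : Fin 4 => range T)).filter
        (fun t => PP B c₃ (fun g => r g + M * t g))).Nonempty := by
      rw [← card_pos]
      have h1 : (0 : ℝ) < (((Fintype.piFinset (fun _ : Fin 4 => range T)).filter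
        (fun t => PP B c₃ (fun g => r g + M * t g))).card : ℝ) := lt_of_lt_of_le (by positivity) hdens
      exact_mod_cast h1
    obtain ⟨t, ht⟩ := hne
    obtain ⟨-, -, ht3⟩ := mem_filter.1 ht
    have h3M : 3 ∣ M := by
      rw [hM]
      refine (Nat.prime_three.dvd_factorial).2 ?_
      have : 1 ≤ (k + 1) * K := Nat.mul_pos (by omega) hK
      have e : 4 * (k + 1) * K = 4 * ((k + 1) * K) := by ring
      omega
    obtain ⟨n, hn⟩ := loc4 1 c₃ r (fun g => by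
        have h1 := ht3 g
        have h2 : (r g + M * t g) % 3 = r g % 3 := by
          obtain ⟨m, hm⟩ := h3M
          rw [hm, mul_assoc, Nat.add_mul_mod_self_left]
        rw [h2] at h1
        exact h1) p hp
    refine ⟨n, fun y hdvd => hn (grp y.1) ?_⟩
    have h1 : (1 : ℤ) * n + ((2 * r (grp y.1) : ℕ) : ℤ) = n + 2 * ((1 : ℕ) : ℤ) * r (grp y.1) := by
      push_cast
      ring
    have h2 : (p : ℤ) ∣ (1 : ℤ) * n + ((2 * r (grp y.1) : ℕ) : ℤ) := hdvd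
    rw [h1] at h2
    exact h2)
  rw [← hnn] at hbad
  -- the three exceptional sets
  obtain ⟨P, hP⟩ : ∃ P, P = Fintype.piFinset (fun _ : Fin (4 * (k + 1)) × Fin K => range T) := ⟨_, rfl⟩
  rw [← hP] at hbad hbox
  obtain ⟨X1, hX1⟩ : ∃ X1, X1 = P.filter (fun F => ¬ ∃ (S : Finset (Fin (4 * (k + 1))))
      (σ : Fin (4 * (k + 1)) → Fin K), k + 1 + 1 ≤ S.card ∧
        ∀ g : Fin (k + 1 + 1) → Fin (4 * (k + 1)), Function.Injective g → (∀ i, g i ∈ S) →
          Gdf κ x (fun i => sh ((1 : ℤ), ((2 * r (grp (g i)) : ℕ) : ℤ)) (2 * M * F (g i, σ (g i))))) :=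
    ⟨_, rfl⟩
  have hX1c : (X1.card : ℝ) ≤ δ₁ / 4 * (T : ℝ) ^ nn := by
    rw [hX1]
    exact hbad
  obtain ⟨X2, hX2⟩ : ∃ X2, X2 = P.filter (fun F => ¬ Function.Injective F) := ⟨_, rfl⟩
  have hcardι : Fintype.card (Fin (4 * (k + 1)) × Fin K) = nn := by
    rw [Fintype.card_prod, Fintype.card_fin, Fintype.card_fin, hnn]
  have hX2c : (X2.card : ℝ) ≤ δ₁ / 4 * (T : ℝ) ^ nn := by
    have h1 := ninj (ι := Fin (4 * (k + 1)) × Fin K) T
    rw [← hP, ← hX2, hcardι] at h1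
    have h2 : 4 * (nn : ℝ) ^ 2 / δ₁ ≤ T := by
      have h3 : (M : ℝ) * (4 * (nn : ℝ) ^ 2 / δ₁) ≤ M * T := by
        have h4 : (H : ℝ) ≤ M * T := by
          have : H ≤ M * T := by omega
          exact_mod_cast this
        linarith
      exact le_of_mul_le_mul_left h3 (by linarith)
    rw [div_le_iff₀ hδ₁0] at h2
    have h3 : (X2.card : ℝ) * T ≤ (δ₁ / 4 * (T : ℝ) ^ nn) * T := by
      refine h1.trans ?_
      have h4 : (0 : ℝ) ≤ (T : ℝ) ^ nn := by positivity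
      nlinarith
    exact le_of_mul_le_mul_right h3 (by linarith)
  obtain ⟨Y, hY⟩ : ∃ Y : (Fin (k + 2) → Fin (4 * (k + 1))) × (Fin (4 * (k + 1)) → Fin K) →
      Finset (Fin (4 * (k + 1)) × Fin K → ℕ), Y = fun w => P.filter (fun F => Fam M B r F ∧
        Function.Injective F ∧ Gdf (k := k + 1) κ x
          (fun i => sh ((1 : ℤ), ((2 * r (grp (w.1 i)) : ℕ) : ℤ)) (2 * M * F (w.1 i, w.2 (w.1 i))))) :=
    ⟨_, rfl⟩
  obtain ⟨I, hI⟩ : ∃ I : Finset ((Fin (k + 2) → Fin (4 * (k + 1))) × (Fin (4 * (k + 1)) → Fin K)),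
      I = univ.filter (fun w => Function.Injective w.1 ∧ grp (w.1 0) < grp (w.1 1)) := ⟨_, rfl⟩
  have hYc : ∀ w ∈ I, ((Y w).card : ℝ) ≤ δ₁ / (4 * Nn) * (T : ℝ) ^ nn := by
    intro w hw
    rw [hI] at hw
    obtain ⟨-, hw1, hw2⟩ := mem_filter.1 hw
    have h1 := key (k + 1) K T M k x H B r κ (c * (H : ℝ) ^ k) hM0 hr1
      (fun d hd => mem_Icc.1 (hBI hd)) (fun d hd => by
        rw [hBdef] at hd
        exact (not_le.1 (mem_filter.1 hd).2).le) (by positivity) (by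
        intro n hn
        unfold IN at hn
        rw [mem_Icc] at hn
        omega) w.1 hw1 hw2 w.2
    rw [← hP, ← hnn] at h1
    have h1' : ((Y w).card : ℝ) * (T : ℝ) ^ k ≤ c * (H : ℝ) ^ k * (T : ℝ) ^ nn := by
      rw [hY]
      exact h1
    have h2 : (H : ℝ) ^ k ≤ (M : ℝ) ^ k * (T : ℝ) ^ k := by
      rw [← mul_pow]
      apply pow_le_pow_left₀ hH0
      have : H ≤ M * T := by omega
      exact_mod_cast this
    have h3 : c * (M : ℝ) ^ k = δ₁ / (4 * Nn) := by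
      rw [hc]
      field_simp
    have h4 : ((Y w).card : ℝ) * (T : ℝ) ^ k ≤ (δ₁ / (4 * Nn) * (T : ℝ) ^ nn) * (T : ℝ) ^ k := by
      refine h1'.trans ?_
      calc c * (H : ℝ) ^ k * (T : ℝ) ^ nn ≤ c * ((M : ℝ) ^ k * (T : ℝ) ^ k) * (T : ℝ) ^ nn := by
            apply mul_le_mul_of_nonneg_right _ (by positivity)
            exact mul_le_mul_of_nonneg_left h2 hc0.le
        _ = (c * (M : ℝ) ^ k) * (T : ℝ) ^ nn * (T : ℝ) ^ k := by ring
        _ = _ := by rw [h3]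
    exact le_of_mul_le_mul_right h4 (by positivity)
  have hX3c : ((I.biUnion Y).card : ℝ) ≤ δ₁ / 4 * (T : ℝ) ^ nn := by
    have h1 : ((I.biUnion Y).card : ℝ) ≤ ∑ w ∈ I, ((Y w).card : ℝ) := by
      exact_mod_cast card_biUnion_le
    refine h1.trans ((sum_le_sum hYc).trans ?_)
    rw [sum_const, nsmul_eq_mul]
    have h2 : (I.card : ℝ) ≤ Nn := by
      have h3 : I.card ≤ Fintype.card ((Fin (k + 2) → Fin (4 * (k + 1))) ×
          (Fin (4 * (k + 1)) → Fin K)) := by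
        rw [← card_univ]
        exact card_le_card (subset_univ _)
      rw [hNn]
      have : (I.card : ℝ) ≤ (Fintype.card ((Fin (k + 2) → Fin (4 * (k + 1))) ×
          (Fin (4 * (k + 1)) → Fin K)) : ℝ) := by exact_mod_cast h3
      linarith
    calc (I.card : ℝ) * (δ₁ / (4 * Nn) * (T : ℝ) ^ nn) ≤ Nn * (δ₁ / (4 * Nn) * (T : ℝ) ^ nn) :=
          mul_le_mul_of_nonneg_right h2 (by positivity)
      _ = _ := by field_simp
  have hcover : P.filter (fun F => Fam M B r F) ⊆ (X1 ∪ X2) ∪ I.biUnion Y := by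
    intro F hF
    obtain ⟨hF1, hF2⟩ := mem_filter.1 hF
    by_cases h1 : F ∈ X1
    · exact mem_union_left _ (mem_union_left _ h1)
    by_cases h2 : F ∈ X2
    · exact mem_union_left _ (mem_union_right _ h2)
    apply mem_union_right
    have h3 : ∃ (S : Finset (Fin (4 * (k + 1)))) (σ : Fin (4 * (k + 1)) → Fin K), k + 1 + 1 ≤ S.card ∧
        ∀ g : Fin (k + 1 + 1) → Fin (4 * (k + 1)), Function.Injective g → (∀ i, g i ∈ S) →
          Gdf κ x (fun i => sh ((1 : ℤ), ((2 * r (grp (g i)) : ℕ) : ℤ)) (2 * M * F (g i, σ (g i)))) := by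
      by_contra h4
      apply h1
      rw [hX1]
      exact mem_filter.2 ⟨hF1, h4⟩
    have h4 : Function.Injective F := by
      by_contra h5
      apply h2
      rw [hX2]
      exact mem_filter.2 ⟨hF1, h5⟩
    obtain ⟨S, σ, hS, hG⟩ := h3
    obtain ⟨γ₀, hγ₀, γ₁, hγ₁, hlt⟩ := two_groups S hS
    obtain ⟨g, hg1, hg2, hg3, hg4⟩ := ext_tuple k S hS γ₀ γ₁ hγ₀ hγ₁ (fun h => by
      rw [h] at hlt
      exact lt_irrefl _ hlt)
    refine mem_biUnion.2 ⟨(g, σ), ?_, ?_⟩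
    · rw [hI]
      refine mem_filter.2 ⟨mem_univ _, hg1, ?_⟩
      show grp (g 0) < grp (g 1)
      rw [hg3, hg4]
      exact hlt
    · rw [hY]
      exact mem_filter.2 ⟨hF1, hF2, h4, hG g hg1 hg2⟩
  have hfin : ((P.filter (fun F => Fam M B r F)).card : ℝ) ≤ X1.card + X2.card + (I.biUnion Y).card := by
    have h1 := (card_le_card hcover).trans ((card_union_le _ _).trans
      (Nat.add_le_add_right (card_union_le _ _) _))
    exact_mod_cast h1
  have h3 : 0 < δ₁ * (T : ℝ) ^ nn := by positivity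
  linarith

end Pool.Agent.N646.TT
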