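import Pool.Agent.TH899.UG.TD2

/-! Project TT: quadruples with all differences in a set (`PP`, `emb`, `exres` follow
`Pool/Agent/TH899/UG/TD3.lean`, `TD4.lean` of the starting files; the copy avoids their other imports). -/

set_option autoImplicit false

namespace Pool.Agent.N646.TT

open Finset
open Pool.Agent.TH899.UG.TD (QQ)

/-- a residue which avoids a small set -/
theorem exres (p : ℕ) (S : Finset ℤ) (hS : S.card < p) : ∃ n : ℤ, ∀ s ∈ S, ¬ (p : ℤ) ∣ n + s := by
  classical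
  have hp : (0 : ℤ) < p := by
    have : 0 < p := by omega
    exact_mod_cast this
  have h1 : (S.image (fun s => (-s) % (p : ℤ))).card < (Ico (0 : ℤ) p).card := by
    refine card_image_le.trans_lt ?_
    rw [Int.card_Ico]
    simpa using hS
  obtain ⟨n, hn1, hn2⟩ := exists_mem_notMem_of_card_lt_card h1
  have hn3 := mem_Ico.1 hn1
  refine ⟨n, fun s hs hd => hn2 ?_⟩
  refine mem_image.2 ⟨s, hs, ?_⟩
  have h2 : (-s) % (p : ℤ) = n % (p : ℤ) := by
    have h3 : (p : ℤ) ∣ n - (-s) := by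
      have : n - (-s) = n + s := by ring
      rw [this]; exact hd
    exact Int.modEq_iff_dvd.2 h3
  rw [h2, Int.emod_eq_of_lt hn3.1 hn3.2]

/-- quadruples with all differences in `B`, in two classes modulo 3 -/
def PP (B : Finset ℕ) (c : ℕ) (f : Fin 4 → ℕ) : Prop :=
  (∀ g g', g < g' → f g < f g' ∧ f g' - f g ∈ B) ∧ ∀ g, f g % 3 = 0 ∨ f g % 3 = c

theorem pp (B : Finset ℕ) (c y u v w : ℕ) (h1 : 0 < u) (h2 : u < v) (h3 : v < w) (hw : w ∈ B)
    (hu : u ∈ B) (hv : v ∈ B) (hvu : v - u ∈ B) (hwu : w - u ∈ B) (hwv : w - v ∈ B)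
    (mu : u % 3 = 0 ∨ u % 3 = c) (mv : v % 3 = 0 ∨ v % 3 = c) (mw : w % 3 = c) :
    PP B c ![3 * y, 3 * y + u, 3 * y + v, 3 * y + w] := by
  have h4 : ∀ g : Fin 4, g = 0 ∨ g = 1 ∨ g = 2 ∨ g = 3 := by decide
  have f0 : (![3 * y, 3 * y + u, 3 * y + v, 3 * y + w] : Fin 4 → ℕ) 0 = 3 * y := rfl
  have f1 : (![3 * y, 3 * y + u, 3 * y + v, 3 * y + w] : Fin 4 → ℕ) 1 = 3 * y + u := rfl
  have f2 : (![3 * y, 3 * y + u, 3 * y + v, 3 * y + w] : Fin 4 → ℕ) 2 = 3 * y + v := rfl
  have f3 : (![3 * y, 3 * y + u, 3 * y + v, 3 * y + w] : Fin 4 → ℕ) 3 = 3 * y + w := rfl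
  constructor
  · intro g g' h
    rcases h4 g with rfl | rfl | rfl | rfl <;> rcases h4 g' with rfl | rfl | rfl | rfl <;>
      first
        | exact absurd h (by decide)
        | skip
    · rw [f0, f1]
      refine ⟨by omega, ?_⟩
      rw [Nat.add_sub_cancel_left]; exact hu
    · rw [f0, f2]
      refine ⟨by omega, ?_⟩
      rw [Nat.add_sub_cancel_left]; exact hv
    · rw [f0, f3]
      refine ⟨by omega, ?_⟩
      rw [Nat.add_sub_cancel_left]; exact hw
    · rw [f1, f2]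
      refine ⟨by omega, ?_⟩
      rw [Nat.add_sub_add_left]; exact hvu
    · rw [f1, f3]
      refine ⟨by omega, ?_⟩
      rw [Nat.add_sub_add_left]; exact hwu
    · rw [f2, f3]
      refine ⟨by omega, ?_⟩
      rw [Nat.add_sub_add_left]; exact hwv
  · intro g
    rcases h4 g with rfl | rfl | rfl | rfl
    · rw [f0]; omega
    · rw [f1]; omega
    · rw [f2]; omega
    · rw [f3]; omega

open Classical in
theorem emb (H c : ℕ) (B : Finset ℕ) : H * (QQ H B c).card ≤
    ((Fintype.piFinset (fun _ : Fin 4 => range (5 * H))).filter (fun f => PP B c f)).card := by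
  have h0 : ((range H) ×ˢ (QQ H B c)).card = H * (QQ H B c).card := by
    rw [card_product, card_range]
  rw [← h0]
  refine card_le_card_of_injOn (fun z : ℕ × ℕ × ℕ × ℕ =>
    (![3 * z.1, 3 * z.1 + z.2.2.1, 3 * z.1 + z.2.2.2, 3 * z.1 + z.2.1] : Fin 4 → ℕ)) ?_ ?_
  · rintro ⟨y, w, u, v⟩ hz
    obtain ⟨hy, hq⟩ := mem_product.1 (mem_coe.1 hz)
    obtain ⟨hq1, q1, q2, q3, q4, q5, q6, q7, q8, q9, q10, q11⟩ := mem_filter.1 hq
    obtain ⟨hw', hq2⟩ := mem_product.1 hq1
    obtain ⟨hu', hv'⟩ := mem_product.1 hq2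
    have hy' := mem_range.1 hy
    simp only at hy' hw' hu' hv' q1 q2 q3 q4 q5 q6 q7 q8 q9 q10 q11
    have hw'' := mem_Icc.1 hw'
    have hu'' := mem_Icc.1 hu'
    have hv'' := mem_Icc.1 hv'
    have hpp := pp B c y u v w (by omega) q1 q2 q3 q4 q5 q6 q7 q8 q9 q10 q11
    refine mem_coe.2 (mem_filter.2 ⟨Fintype.mem_piFinset.2 ?_, hpp⟩)
    have h4 : ∀ g : Fin 4, g = 0 ∨ g = 1 ∨ g = 2 ∨ g = 3 := by decide
    intro g
    rw [mem_range]
    rcases h4 g with rfl | rfl | rfl | rfl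
    · show 3 * y < 5 * H
      omega
    · show 3 * y + u < 5 * H
      omega
    · show 3 * y + v < 5 * H
      omega
    · show 3 * y + w < 5 * H
      omega
  · rintro ⟨y, w, u, v⟩ _ ⟨y', w', u', v'⟩ _ h
    have e0 : 3 * y = 3 * y' := congrFun h 0
    have e1 : 3 * y + u = 3 * y' + u' := congrFun h 1
    have e2 : 3 * y + v = 3 * y' + v' := congrFun h 2
    have e3 : 3 * y + w = 3 * y' + w' := congrFun h 3
    have a0 : y = y' := by omega
    have a1 : u = u' := by omega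
    have a2 : v = v' := by omega
    have a3 : w = w' := by omega
    rw [a0, a1, a2, a3]

/-- the local conditions -/
theorem loc4 (b c : ℕ) (r : Fin 4 → ℕ) (h3 : ∀ g, r g % 3 = 0 ∨ r g % 3 = c)
    (p : ℕ) (hp : p.Prime) : ∃ n : ℤ, ∀ g, ¬ ((p : ℤ) ∣ n + 2 * b * r g) := by
  classical
  by_cases hp2 : p = 2
  · subst hp2
    refine ⟨1, fun g h => ?_⟩
    have h1 : ((2 : ℕ) : ℤ) ∣ 1 := by
      have h2 : (1 : ℤ) = (1 + 2 * b * r g) - 2 * (b * r g) := by ring
      rw [h2]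
      exact dvd_sub h (dvd_mul_right _ _)
    norm_num at h1
  by_cases hp3 : p = 3
  · subst hp3
    obtain ⟨n, hn⟩ := exres 3 {0, (2 : ℤ) * b * c} (lt_of_le_of_lt (card_le_two) (by norm_num))
    refine ⟨n, fun g h => ?_⟩
    have h4 : ∀ t : ℕ, r g % 3 = t % 3 → ((3 : ℕ) : ℤ) ∣ n + 2 * b * t := by
      intro t ht
      have h5 : ((3 : ℕ) : ℤ) ∣ (r g : ℤ) - t := by
        push_cast
        omega
      have h6 : n + 2 * (b : ℤ) * t = (n + 2 * b * r g) - ((r g : ℤ) - t) * (2 * b) := by ring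
      rw [h6]
      exact dvd_sub h (h5.mul_right _)
    rcases h3 g with h5 | h5
    · refine hn 0 (by simp) ?_
      have h6 := h4 0 (by omega)
      push_cast at h6
      rw [mul_zero] at h6
      exact h6
    · refine hn (2 * b * c) (by simp) ?_
      exact h4 c (by omega)
  have hp5 : 5 ≤ p := by
    have h2 := hp.two_le
    rcases Nat.lt_or_ge p 5 with h | h
    · interval_cases p
      · exact absurd rfl hp2
      · exact absurd rfl hp3
      · exact absurd hp (by decide)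
    · exact h
  obtain ⟨n, hn⟩ := exres p ((univ : Finset (Fin 4)).image (fun g => (2 * b * r g : ℤ))) (by
    refine card_image_le.trans_lt ?_
    rw [card_univ, Fintype.card_fin]
    omega)
  exact ⟨n, fun g h => hn _ (mem_image.2 ⟨g, mem_univ _, rfl⟩) h⟩

end Pool.Agent.N646.TT
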