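import Pool.Agent.N646.TT.Box
import Pool.Agent.N646.RG.All
import Pool.Agent.N646.TT.Quad

/-! Project TT: one third of all even differences have the right order, at every scale. -/

set_option autoImplicit false

namespace Pool.Agent.N646.TT

open Finset Filter Topology
open Pool.Agent.N646.RG
open Pool.Agent.TH899.UG.TD (QQ quad)

open Classical in
/-- residues -/
theorem residues (H M T : ℕ) (hM : 1 ≤ M) (hT : 5 * H ≤ M * T) (P : (Fin 4 → ℕ) → Prop) :
    ∃ r : Fin 4 → ℕ, (∀ g, r g < M) ∧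
      ((Fintype.piFinset (fun _ : Fin 4 => range (5 * H))).filter P).card ≤
        M ^ 4 * ((Fintype.piFinset (fun _ : Fin 4 => range T)).filter
          (fun t => P (fun g => r g + M * t g))).card := by
  obtain ⟨R, hR⟩ : ∃ R, R = Fintype.piFinset (fun _ : Fin 4 => range M) := ⟨_, rfl⟩
  have hRc : R.card = M ^ 4 := by
    rw [hR, Fintype.card_piFinset, prod_const, card_univ, Fintype.card_fin, card_range]
  have hne : R.Nonempty := by
    rw [← card_pos, hRc]
    positivity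
  obtain ⟨r, hr, hmax⟩ := exists_max_image R (fun r => ((Fintype.piFinset (fun _ : Fin 4 => range T)).filter
    (fun t => P (fun g => r g + M * t g))).card) hne
  rw [hR] at hr
  refine ⟨r, fun g => mem_range.1 (Fintype.mem_piFinset.1 hr g), ?_⟩
  have h1 : ((Fintype.piFinset (fun _ : Fin 4 => range (5 * H))).filter P).card ≤
      ∑ r' ∈ R, ((Fintype.piFinset (fun _ : Fin 4 => range T)).filter
        (fun t => P (fun g => r' g + M * t g))).card := by
    rw [card_eq_sum_card_fiberwise (f := fun f : Fin 4 → ℕ => fun g => f g % M) (t := R)]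
    · refine sum_le_sum fun r' _ => ?_
      apply card_le_card_of_injOn (fun f => fun g => f g / M)
      · intro f hf
        obtain ⟨hf1, hf2⟩ := mem_filter.1 (mem_coe.1 hf)
        obtain ⟨hf3, hf4⟩ := mem_filter.1 hf1
        have h1 : (fun g => r' g + M * (f g / M)) = f := by
          funext g
          have : f g % M = r' g := congrFun hf2 g
          rw [← this]
          exact Nat.mod_add_div _ _
        refine mem_coe.2 (mem_filter.2 ⟨Fintype.mem_piFinset.2 fun g => ?_, ?_⟩)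
        · rw [mem_range]
          have := mem_range.1 (Fintype.mem_piFinset.1 hf3 g)
          exact Nat.div_lt_of_lt_mul (this.trans_le hT)
        · show P (fun g => r' g + M * (f g / M))
          rw [h1]
          exact hf4
      · intro f hf f' hf' h
        have hf2 := (mem_filter.1 (mem_coe.1 hf)).2
        have hf2' := (mem_filter.1 (mem_coe.1 hf')).2
        funext g
        have h1 : f g % M = f' g % M := (congrFun hf2 g).trans (congrFun hf2' g).symm
        have h2 : f g / M = f' g / M := congrFun h g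
        rw [← Nat.mod_add_div (f g) M, h1, h2, Nat.mod_add_div]
    · intro f _
      rw [hR]
      exact mem_coe.2 (Fintype.mem_piFinset.2 fun g => mem_range.2 (Nat.mod_lt _ (by omega)))
  refine h1.trans ((sum_le_sum fun r' hr' => hmax r' hr').trans (le_of_eq ?_))
  rw [sum_const, hRc, smul_eq_mul]

/-- the number of the primes `p ≤ x` for which `p - d` is prime -/
def pi2 (x d : ℕ) : ℕ := ((Icc 1 x).filter (fun p : ℕ => p.Prime ∧ (p - d).Prime)).card

theorem gdf_pi2 {κ : ℝ} {x d A B : ℕ} (hG : Gdf κ x ![((1 : ℤ), (A : ℤ)), ((1 : ℤ), (B : ℤ))])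
    (h1 : B = A + d) (h2 : ∀ n ∈ IN x, n + B ≤ x) :
    κ * (x / Real.log x ^ 2) ≤ (pi2 x d : ℝ) := by
  unfold Gdf at hG
  refine hG.trans ?_
  rw [Nat.cast_le]
  unfold pi2
  apply card_le_card_of_injOn (fun n : ℕ => n + B)
  · intro n hn
    rw [mem_coe, mem_filter] at hn
    have h3 : (ev ((1 : ℤ), (A : ℤ)) n).toNat.Prime := hn.2 0
    have h4 : (ev ((1 : ℤ), (B : ℤ)) n).toNat.Prime := hn.2 1
    have h5 := h2 n hn.1
    have e1 : (ev ((1 : ℤ), (A : ℤ)) n).toNat = n + A := by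
      show ((1 : ℤ) * (n : ℤ) + (A : ℤ)).toNat = n + A
      rw [one_mul]
      omega
    have e2 : (ev ((1 : ℤ), (B : ℤ)) n).toNat = n + B := by
      show ((1 : ℤ) * (n : ℤ) + (B : ℤ)).toNat = n + B
      rw [one_mul]
      omega
    rw [e1] at h3
    rw [e2] at h4
    have h6 : n + B - d = n + A := by omega
    have h7 := h4.pos
    refine mem_coe.2 (mem_filter.2 ⟨mem_Icc.2 ⟨h7, h5⟩, h4, ?_⟩)
    show (n + B - d).Prime
    rw [h6]
    exact h3
  · intro n _ n' _ he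
    have he' : n + B = n' + B := he
    omega

open Classical in
/-- a box all of whose corners are bad quadruples -/
theorem boxU (K T : ℕ) (hK : 1 ≤ K) (Q : (Fin 4 → ℕ) → Prop) (δ : ℝ) (hδ : 0 ≤ δ)
    (h : δ * (T : ℝ) ^ 4 ≤ (((Fintype.piFinset (fun _ : Fin 4 => range T)).filter Q).card : ℝ)) :
    δ ^ (K ^ 4) * (T : ℝ) ^ (4 * K) ≤
      (((Fintype.piFinset (fun _ : Fin 4 × Fin K => range T)).filter
        (fun H => ∀ σ : Fin 4 → Fin K, Q (fun g => H (g, σ g)))).card : ℝ) := by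
  have h1 := boxes K T hK 4 ({()} : Finset Unit) (fun t _ => Q t) δ hδ (by
    rw [card_singleton, Nat.cast_one, one_mul]
    refine h.trans ?_
    rw [Nat.cast_le]
    apply card_le_card_of_injOn (fun t => (t, ()))
    · intro t ht
      obtain ⟨h1, h2⟩ := mem_filter.1 (mem_coe.1 ht)
      exact mem_coe.2 (mem_filter.2 ⟨mem_product.2 ⟨h1, mem_singleton_self _⟩, h2⟩)
    · intro t _ t' _ h
      exact (Prod.mk.inj h).1)
  rw [card_singleton, Nat.cast_one, one_mul] at h1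
  refine h1.trans ?_
  rw [Nat.cast_le]
  apply card_le_card_of_injOn (fun x => (fun y : Fin 4 × Fin K => x.1 y.1 y.2))
  · intro x hx
    obtain ⟨h2, h3⟩ := mem_filter.1 (mem_coe.1 hx)
    obtain ⟨h4, -⟩ := mem_product.1 h2
    refine mem_coe.2 (mem_filter.2 ⟨Fintype.mem_piFinset.2 fun y => ?_, fun σ => h3 σ⟩)
    exact Fintype.mem_piFinset.1 (Fintype.mem_piFinset.1 h4 y.1) y.2
  · rintro ⟨F, ⟨⟩⟩ _ ⟨F', ⟨⟩⟩ _ h
    have : F = F' := by
      funext g i
      exact congrFun h (g, i)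
    rw [this]

open Classical in
/-- **one third of the multiples of `2 b`** -/
theorem main (b : ℕ) (hb : 1 ≤ b) (ε lam : ℝ) (hε : 0 < ε) (hlam : 0 < lam) : ∃ κ : ℝ, 0 < κ ∧
    ∀ᶠ x : ℕ in atTop, ∀ H : ℕ, lam * Real.log x ≤ H → 100 * (b * H) ≤ x →
    (1 / 3 - ε) * (H : ℝ) ≤
      (((Icc 1 H).filter (fun k : ℕ => κ * (x / Real.log x ^ 2) ≤ (pi2 x (2 * b * k) : ℝ))).card : ℝ) := by
  obtain ⟨K, hK, H0⟩ := sHITM2 1 4 1 (by norm_num) (by norm_num)
  obtain ⟨M, hM⟩ : ∃ M, M = (4 * K).factorial := ⟨_, rfl⟩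
  have hM0 : 1 ≤ M := by rw [hM]; exact Nat.factorial_pos _
  have hM0R : (1 : ℝ) ≤ M := by exact_mod_cast hM0
  obtain ⟨e, he⟩ : ∃ e, e = min ε 1 := ⟨_, rfl⟩
  have he0 : 0 < e := by rw [he]; positivity
  have he1 : e ≤ 1 := by rw [he]; exact min_le_right _ _
  have heε : e ≤ ε := by rw [he]; exact min_le_left _ _
  obtain ⟨ε₂, hε₂⟩ : ∃ ε₂ : ℝ, ε₂ = (e / 16) ^ 3 / 625 := ⟨_, rfl⟩
  have hε₂0 : 0 < ε₂ := by rw [hε₂]; positivity
  obtain ⟨δ, hδ⟩ : ∃ δ : ℝ, δ = ε₂ / 16 := ⟨_, rfl⟩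
  have hδ0 : 0 < δ := by rw [hδ]; positivity
  obtain ⟨δ', hδ'⟩ : ∃ δ' : ℝ, δ' = δ ^ (K ^ 4) / 2 := ⟨_, rfl⟩
  have hδ'0 : 0 < δ' := by rw [hδ']; positivity
  obtain ⟨κ, hκ, H1⟩ := H0 (2 * b * M) (by
    have : 1 ≤ b * M := Nat.mul_le_mul hb hM0
    nlinarith) (5 * lam / M) δ' (by positivity) hδ'0
  refine ⟨κ, hκ, ?_⟩
  have hlog : Tendsto (fun x : ℕ => lam * Real.log (x : ℝ)) atTop atTop :=
    (Real.tendsto_log_atTop.comp tendsto_natCast_atTop_atTop).const_mul_atTop hlam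
  filter_upwards [H1, hlog.eventually_ge_atTop (16 / e + M), eventually_ge_atTop (100 * (b * M) + 100)]
    with x hx hxl hxb H hH hHx
  by_contra hcon
  push Not at hcon
  obtain ⟨B, hBdef⟩ : ∃ B, B = (Icc 1 H).filter
      (fun k : ℕ => ¬ κ * (x / Real.log x ^ 2) ≤ (pi2 x (2 * b * k) : ℝ)) := ⟨_, rfl⟩
  have hsum : ((Icc 1 H).filter
      (fun k : ℕ => κ * (x / Real.log x ^ 2) ≤ (pi2 x (2 * b * k) : ℝ))).card + B.card = H := by
    rw [hBdef, card_filter_add_card_filter_not, Nat.card_Icc, Nat.add_sub_cancel]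
  have hBI : B ⊆ Icc 1 H := by rw [hBdef]; exact filter_subset _ _
  have hsumr : ((((Icc 1 H).filter
      (fun k : ℕ => κ * (x / Real.log x ^ 2) ≤ (pi2 x (2 * b * k) : ℝ))).card : ℕ) : ℝ) +
      (B.card : ℝ) = H := by exact_mod_cast hsum
  have hH0 : (0 : ℝ) ≤ H := Nat.cast_nonneg _
  have hBr : (2 / 3 + e) * (H : ℝ) ≤ B.card := by nlinarith
  have h16e : 0 < 16 / e := by positivity
  have hHbig : 16 / e + M ≤ (H : ℝ) := hxl.trans hH
  have hHM : M ≤ H := by
    have : (M : ℝ) ≤ H := by linarith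
    exact_mod_cast this
  have heH : 16 ≤ e * H := by
    have h1 : 16 / e ≤ (H : ℝ) := by linarith
    rw [div_le_iff₀ he0] at h1
    linarith
  obtain ⟨R, hR⟩ : ∃ R, R = ⌊e * H / 8⌋₊ := ⟨_, rfl⟩
  have hRu : (R : ℝ) ≤ e * H / 8 := by rw [hR]; exact Nat.floor_le (by positivity)
  have hRl : e * H / 16 ≤ (R : ℝ) := by
    have h1 : e * H / 8 < (R : ℝ) + 1 := by rw [hR]; exact Nat.lt_floor_add_one _
    linarith
  have hR1 : 1 ≤ R := by
    have h1 : (1 : ℝ) ≤ R := by linarith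
    exact_mod_cast h1
  obtain ⟨c, hc, hq'⟩ := quad H R R hR1 B hBI (by
    have h1 : (2 * H + 9 * R + 3 * R + 20 : ℝ) ≤ 3 * B.card := by nlinarith
    exact_mod_cast h1)
  have hcount : ε₂ * (5 * (H : ℝ)) ^ 4 ≤
      (((Fintype.piFinset (fun _ : Fin 4 => range (5 * H))).filter (fun f => PP B c f)).card : ℝ) := by
    have h2 : (H : ℝ) * (QQ H B c).card ≤
      (((Fintype.piFinset (fun _ : Fin 4 => range (5 * H))).filter (fun f => PP B c f)).card : ℝ) := by
      exact_mod_cast emb H c B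
    refine le_trans ?_ h2
    have h3 : (R : ℝ) * (R * R) ≤ (QQ H B c).card := by exact_mod_cast hq'
    have h4 : (e * H / 16) ^ 3 ≤ (R : ℝ) ^ 3 := by gcongr
    have h5 : (R : ℝ) ^ 3 = R * (R * R) := by ring
    have h6 : ε₂ * (5 * (H : ℝ)) ^ 4 = H * (e * H / 16) ^ 3 := by rw [hε₂]; ring
    rw [h6]
    exact mul_le_mul_of_nonneg_left (by linarith) hH0
  obtain ⟨T, hT⟩ : ∃ T, T = 5 * H / M + 1 := ⟨_, rfl⟩
  have hT1 : 1 ≤ T := by
    rw [hT]
    exact Nat.le_add_left 1 _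
  have hMT : 5 * H ≤ M * T := by
    rw [hT]
    exact (Nat.lt_mul_div_succ _ (by omega)).le
  have hMT2 : M * T ≤ 5 * H + M := by
    rw [hT, mul_add, mul_one]
    have := Nat.mul_div_le (5 * H) M
    omega
  obtain ⟨r, hr1, hr2⟩ := residues H M T hM0 hMT (PP B c)
  have hdens : δ * (T : ℝ) ^ 4 ≤ (((Fintype.piFinset (fun _ : Fin 4 => range T)).filter
      (fun t => PP B c (fun g => r g + M * t g))).card : ℝ) := by
    have h1 : ε₂ * (5 * (H : ℝ)) ^ 4 ≤ (M : ℝ) ^ 4 *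
        (((Fintype.piFinset (fun _ : Fin 4 => range T)).filter
          (fun t => PP B c (fun g => r g + M * t g))).card : ℝ) := by
      refine hcount.trans ?_
      exact_mod_cast hr2
    have h2 : (M : ℝ) * T ≤ 2 * (5 * (H : ℝ)) := by
      have : M * T ≤ 2 * (5 * H) := by omega
      exact_mod_cast this
    have h3 : ((M : ℝ) * T) ^ 4 ≤ (2 * (5 * (H : ℝ))) ^ 4 := pow_le_pow_left₀ (by positivity) h2 4
    have h4 : (M : ℝ) ^ 4 * (δ * (T : ℝ) ^ 4) ≤ ε₂ * (5 * (H : ℝ)) ^ 4 := by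
      calc (M : ℝ) ^ 4 * (δ * (T : ℝ) ^ 4) = δ * ((M : ℝ) * T) ^ 4 := by ring
        _ ≤ δ * (2 * (5 * (H : ℝ))) ^ 4 := mul_le_mul_of_nonneg_left h3 hδ0.le
        _ = _ := by rw [hδ]; ring
    exact le_of_mul_le_mul_left (h4.trans h1) (by positivity)
  have hbox := boxU K T hK (fun t => PP B c (fun g => r g + M * t g)) δ hδ0.le hdens
  have hTR : (1 : ℝ) ≤ T := by exact_mod_cast hT1
  have hbM : 4 * (b * M) ≤ x := by omega
  have hrange : 2 * (2 * b * M * T) ≤ x := by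
    have h1 : 2 * (2 * b * M * T) = 4 * (b * (M * T)) := by ring
    have h2 : b * (M * T) ≤ b * (5 * H + M) := Nat.mul_le_mul_left _ hMT2
    have h3 : b * (5 * H + M) = 5 * (b * H) + b * M := by ring
    omega
  have hval : ∀ g t, t ≤ T → 2 * b * (r g + M * t) ≤ 10 * (b * H) + 4 * (b * M) := by
    intro g t ht
    have h1 : r g + M * t ≤ 5 * H + 2 * M := by
      have := hr1 g
      have h2 : M * t ≤ M * T := Nat.mul_le_mul_left _ ht
      omega
    calc 2 * b * (r g + M * t) ≤ 2 * b * (5 * H + 2 * M) := Nat.mul_le_mul_left _ h1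
      _ = _ := by ring
  have hbad := hx T (by
    have h1 : (5 * lam / M) * Real.log x = 5 * (lam * Real.log x) / M := by ring
    rw [h1, div_le_iff₀ (by linarith)]
    have h2 : 5 * (lam * Real.log x) ≤ 5 * (H : ℝ) := by linarith
    refine h2.trans ?_
    have h3 : (5 : ℝ) * H ≤ M * T := by exact_mod_cast hMT
    linarith) hrange (fun y => ((1 : ℤ), ((2 * b * r y.1 : ℕ) : ℤ))) (by
    intro y t ht
    have h1 := hval y.1 t ht
    have e1 : ((2 * b * r y.1 : ℕ) : ℤ) + ((2 * b * M * t : ℕ) : ℤ) =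
        ((2 * b * (r y.1 + M * t) : ℕ) : ℤ) := by
      push_cast
      ring
    refine ⟨Or.inl rfl, ?_, ?_⟩
    · show 10 * |((2 * b * r y.1 : ℕ) : ℤ) + ((2 * b * M * t : ℕ) : ℤ)| ≤ 9 * x
      rw [e1, abs_of_nonneg (by positivity)]
      have h4 : 10 * (2 * b * (r y.1 + M * t)) ≤ 9 * x := by
        generalize 2 * b * (r y.1 + M * t) = z at h1
        omega
      exact_mod_cast h4
    · intro s hs1 _
      show (x : ℝ) / 20 ≤ ((1 : ℤ) : ℝ) * s +
        ((((2 * b * r y.1 : ℕ) : ℤ) + ((2 * b * M * t : ℕ) : ℤ) : ℤ) : ℝ)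
      have h4 : (0 : ℝ) ≤ ((((2 * b * r y.1 : ℕ) : ℤ) + ((2 * b * M * t : ℕ) : ℤ) : ℤ) : ℝ) := by
        positivity
      have h5 : (0 : ℝ) ≤ x := Nat.cast_nonneg _
      rw [Int.cast_one, one_mul]
      linarith) (by
    intro p hp hpK
    have hpM : p ∣ M := by rw [hM]; exact (hp.dvd_factorial).2 hpK
    refine ⟨dvd_mul_of_dvd_right hpM _, ?_⟩
    -- the residues come from a bad quadruple
    have hne : ((Fintype.piFinset (fun _ : Fin 4 => range T)).filter
        (fun t => PP B c (fun g => r g + M * t g))).Nonempty := by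
      rw [← card_pos]
      have h1 : (0 : ℝ) < (((Fintype.piFinset (fun _ : Fin 4 => range T)).filter
        (fun t => PP B c (fun g => r g + M * t g))).card : ℝ) := lt_of_lt_of_le (by positivity) hdens
      exact_mod_cast h1
    obtain ⟨t, ht⟩ := hne
    obtain ⟨-, -, ht3⟩ := mem_filter.1 ht
    have h3M : 3 ∣ M := by
      rw [hM]
      exact (Nat.prime_three.dvd_factorial).2 (by omega)
    obtain ⟨n, hn⟩ := loc4 b c r (fun g => by
        have h1 := ht3 g
        have h2 : (r g + M * t g) % 3 = r g % 3 := by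
          obtain ⟨m, hm⟩ := h3M
          rw [hm, mul_assoc, Nat.add_mul_mod_self_left]
        rw [h2] at h1
        exact h1) p hp
    refine ⟨n, fun y hdvd => hn y.1 ?_⟩
    have h1 : (1 : ℤ) * n + ((2 * b * r y.1 : ℕ) : ℤ) = n + 2 * b * r y.1 := by
      push_cast
      ring
    have h2 : (p : ℤ) ∣ (1 : ℤ) * n + ((2 * b * r y.1 : ℕ) : ℤ) := hdvd
    rw [h1] at h2
    exact h2)
  -- a box which is not exceptional
  obtain ⟨F, hF1, hF2⟩ : ∃ F ∈ Fintype.piFinset (fun _ : Fin 4 × Fin K => range T),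
      (∀ σ : Fin 4 → Fin K, PP B c (fun g => r g + M * F (g, σ g))) ∧
      ∃ (S : Finset (Fin 4)) (σ : Fin 4 → Fin K), 1 + 1 ≤ S.card ∧
        ∀ g : Fin (1 + 1) → Fin 4, Function.Injective g → (∀ i, g i ∈ S) →
          Gdf κ x (fun i => sh ((1 : ℤ), ((2 * b * r (g i) : ℕ) : ℤ)) (2 * b * M * F (g i, σ (g i)))) := by
    by_contra hno
    push Not at hno
    have h1 : (((Fintype.piFinset (fun _ : Fin 4 × Fin K => range T)).filter
        (fun H => ∀ σ : Fin 4 → Fin K, PP B c (fun g => r g + M * H (g, σ g)))).card : ℝ) ≤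
        δ' * (T : ℝ) ^ (4 * K) := by
      refine le_trans ?_ hbad
      rw [Nat.cast_le]
      apply card_le_card
      intro F hF
      obtain ⟨hF1, hF2⟩ := mem_filter.1 hF
      refine mem_filter.2 ⟨hF1, ?_⟩
      rintro ⟨S, σ, hS1, hS2⟩
      obtain ⟨g, hg1, hg2, hg3⟩ := hno F hF1 hF2 S σ hS1
      exact hg3 (hS2 g hg1 hg2)
    have h2 := hbox.trans h1
    rw [hδ'] at h2
    have h3 : 0 < δ ^ (K ^ 4) * (T : ℝ) ^ (4 * K) := by positivity
    linarith
  obtain ⟨hPP, S, σ, hS, hG⟩ := hF2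
  obtain ⟨g₁, hg₁, g₂, hg₂, hne⟩ := one_lt_card.1 (by omega : 1 < S.card)
  have fin : ∀ g g' : Fin 4, g ∈ S → g' ∈ S → g < g' → False := by
    intro g g' hg hg' hlt
    have h1 := hG ![g, g'] (by
      intro i j hij
      fin_cases i <;> fin_cases j
      · rfl
      · exact absurd hij hlt.ne
      · exact absurd hij hlt.ne'
      · rfl) (by
      intro i
      fin_cases i
      · exact hg
      · exact hg')
    have h2 := (hPP σ).1 g g' hlt
    obtain ⟨h3, h4⟩ := h2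
    obtain ⟨a, ha⟩ : ∃ a, a = r g + M * F (g, σ g) := ⟨_, rfl⟩
    obtain ⟨a', ha'⟩ : ∃ a', a' = r g' + M * F (g', σ g') := ⟨_, rfl⟩
    have h3' : a < a' := by rw [ha, ha']; exact h3
    have h4' : a' - a ∈ B := by rw [ha, ha']; exact h4
    have e : (fun i => sh ((1 : ℤ), ((2 * b * r ((![g, g'] : Fin 2 → Fin 4) i) : ℕ) : ℤ))
        (2 * b * M * F ((![g, g'] : Fin 2 → Fin 4) i, σ ((![g, g'] : Fin 2 → Fin 4) i)))) =
        ![((1 : ℤ), ((2 * b * a : ℕ) : ℤ)), ((1 : ℤ), ((2 * b * a' : ℕ) : ℤ))] := by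
      funext i
      fin_cases i
      · show ((1 : ℤ), ((2 * b * r g : ℕ) : ℤ) + ((2 * b * M * F (g, σ g) : ℕ) : ℤ)) =
          ((1 : ℤ), ((2 * b * a : ℕ) : ℤ))
        rw [ha]
        push_cast
        congr 1
        ring
      · show ((1 : ℤ), ((2 * b * r g' : ℕ) : ℤ) + ((2 * b * M * F (g', σ g') : ℕ) : ℤ)) =
          ((1 : ℤ), ((2 * b * a' : ℕ) : ℤ))
        rw [ha']
        push_cast
        congr 1
        ring
    have h5 : Gdf κ x ![((1 : ℤ), ((2 * b * a : ℕ) : ℤ)), ((1 : ℤ), ((2 * b * a' : ℕ) : ℤ))] := by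
      have h6 : Gdf κ x (fun i => sh ((1 : ℤ), ((2 * b * r ((![g, g'] : Fin 2 → Fin 4) i) : ℕ) : ℤ))
        (2 * b * M * F ((![g, g'] : Fin 2 → Fin 4) i, σ ((![g, g'] : Fin 2 → Fin 4) i)))) := h1
      rw [e] at h6
      exact h6
    rw [hBdef, mem_filter] at h4'
    apply h4'.2
    apply gdf_pi2 h5
    · rw [← Nat.mul_add, Nat.add_sub_cancel' h3'.le]
    · intro n hn
      unfold IN at hn
      rw [mem_Icc] at hn
      have h7 := hval g' (F (g', σ g')) (mem_range.1 (Fintype.mem_piFinset.1 hF1 _)).le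
      rw [← ha'] at h7
      generalize 2 * b * a' = z at h7
      omega
  rcases lt_or_gt_of_ne hne with h | h
  · exact fin g₁ g₂ hg₁ hg₂ h
  · exact fin g₂ g₁ hg₂ hg₁ h

end Pool.Agent.N646.TT
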