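import Pool.Agent.N646.TT.Cnt
import Pool.Agent.Y827.HN.Pat

/-! Project TA: narrow progressions of prime pairs for one third of all even differences. -/

set_option autoImplicit false

namespace Pool.Agent.N646.TT

open Finset Filter Topology
open Pool.Agent.TH899.UG.TD (QQ quad)

open Classical in
/-- four groups of `K` numbers with all differences between different groups in `B` -/
theorem config (ε : ℝ) (hε : 0 < ε) (K : ℕ) (hK : 1 ≤ K) : ∃ L : ℕ, ∀ H : ℕ, L ≤ H →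
    ∀ B ⊆ Icc 1 H, (2 / 3 + ε) * (H : ℝ) ≤ B.card →
    ∃ (c : ℕ) (r : Fin 4 → ℕ) (F : Fin 4 × Fin K → ℕ), (∀ g, r g % 3 = 0 ∨ r g % 3 = c) ∧
      Function.Injective (fun z : Fin 4 × Fin K => r z.1 + (4 * K).factorial * F z) ∧
      ∀ g g', g < g' → ∀ i j, r g + (4 * K).factorial * F (g, i) < r g' + (4 * K).factorial * F (g', j) ∧
        (r g' + (4 * K).factorial * F (g', j)) - (r g + (4 * K).factorial * F (g, i)) ∈ B := by
  obtain ⟨M, hM⟩ : ∃ M, M = (4 * K).factorial := ⟨_, rfl⟩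
  have hM0 : 1 ≤ M := by rw [hM]; exact Nat.factorial_pos _
  have hM0R : (1 : ℝ) ≤ M := by exact_mod_cast hM0
  obtain ⟨e, he⟩ : ∃ e, e = min ε 1 := ⟨_, rfl⟩
  have he0 : 0 < e := by rw [he]; positivity
  have he1 : e ≤ 1 := by rw [he]; exact min_le_right _ _
  have heε : e ≤ ε := by rw [he]; exact min_le_left _ _
  obtain ⟨ε₂, hε₂⟩ : ∃ ε₂ : ℝ, ε₂ = (e / 16) ^ 3 / 625 := ⟨_, rfl⟩
  have hε₂0 : 0 < ε₂ := by rw [hε₂]; positivity
  obtain ⟨δ, hδ⟩ : ∃ δ : ℝ, δ = ε₂ / 16 := ⟨_, rfl⟩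
  have hδ0 : 0 < δ := by rw [hδ]; positivity
  obtain ⟨δ₁, hδ₁⟩ : ∃ δ₁ : ℝ, δ₁ = δ ^ (K ^ 4) := ⟨_, rfl⟩
  have hδ₁0 : 0 < δ₁ := by rw [hδ₁]; positivity
  obtain ⟨nn, hnn⟩ : ∃ nn : ℕ, nn = 4 * K := ⟨_, rfl⟩
  obtain ⟨L, hL⟩ := exists_nat_ge (16 / e + M + M * ((nn : ℝ) ^ 2 / δ₁ + 1))
  refine ⟨L, fun H hH B hBI hBr₀ => ?_⟩
  rw [← hM]
  have hH0 : (0 : ℝ) ≤ H := Nat.cast_nonneg _
  have hBr : (2 / 3 + e) * (H : ℝ) ≤ B.card := by nlinarith
  have h16e : 0 < 16 / e := by positivity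
  have hM4 : 0 ≤ M * ((nn : ℝ) ^ 2 / δ₁ + 1) := by positivity
  have hHbig : 16 / e + M + M * ((nn : ℝ) ^ 2 / δ₁ + 1) ≤ (H : ℝ) := hL.trans (by exact_mod_cast hH)
  have hHM : M ≤ H := by
    have : (M : ℝ) ≤ H := by linarith
    exact_mod_cast this
  have heH : 16 ≤ e * H := by
    have h1 : 16 / e ≤ (H : ℝ) := by linarith
    rw [div_le_iff₀ he0] at h1
    linarith
  obtain ⟨R, hR⟩ : ∃ R, R = ⌊e * H / 8⌋₊ := ⟨_, rfl⟩
  have hRu : (R : ℝ) ≤ e * H / 8 := by rw [hR]; exact Nat.floor_le (by positivity)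
  have hRl : e * H / 16 ≤ (R : ℝ) := by
    have h1 : e * H / 8 < (R : ℝ) + 1 := by rw [hR]; exact Nat.lt_floor_add_one _
    linarith
  have hR1 : 1 ≤ R := by
    have h1 : (1 : ℝ) ≤ R := by linarith
    exact_mod_cast h1
  obtain ⟨c, hc, hq'⟩ := quad H R R hR1 B hBI (by
    have h1 : (2 * H + 9 * R + 3 * R + 20 : ℝ) ≤ 3 * B.card := by nlinarith
    exact_mod_cast h1)
  have hcount : ε₂ * (5 * (H : ℝ)) ^ 4 ≤
      (((Fintype.piFinset (fun _ : Fin 4 => range (5 * H))).filter (fun f => PP B c f)).card : ℝ) := by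
    have h2 : (H : ℝ) * (QQ H B c).card ≤
      (((Fintype.piFinset (fun _ : Fin 4 => range (5 * H))).filter (fun f => PP B c f)).card : ℝ) := by
      exact_mod_cast emb H c B
    refine le_trans ?_ h2
    have h3 : (R : ℝ) * (R * R) ≤ (QQ H B c).card := by exact_mod_cast hq'
    have h4 : (e * H / 16) ^ 3 ≤ (R : ℝ) ^ 3 := by gcongr
    have h5 : (R : ℝ) ^ 3 = R * (R * R) := by ring
    have h6 : ε₂ * (5 * (H : ℝ)) ^ 4 = H * (e * H / 16) ^ 3 := by rw [hε₂]; ring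
    rw [h6]
    exact mul_le_mul_of_nonneg_left (by linarith) hH0
  obtain ⟨T, hT⟩ : ∃ T, T = 5 * H / M + 1 := ⟨_, rfl⟩
  have hT1 : 1 ≤ T := by
    rw [hT]
    exact Nat.le_add_left 1 _
  have hMT : 5 * H ≤ M * T := by
    rw [hT]
    exact (Nat.lt_mul_div_succ _ (by omega)).le
  have hMT2 : M * T ≤ 5 * H + M := by
    rw [hT, mul_add, mul_one]
    have := Nat.mul_div_le (5 * H) M
    omega
  obtain ⟨r, hr1, hr2⟩ := residues H M T hM0 hMT (PP B c)
  have hdens : δ * (T : ℝ) ^ 4 ≤ (((Fintype.piFinset (fun _ : Fin 4 => range T)).filter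
      (fun t => PP B c (fun g => r g + M * t g))).card : ℝ) := by
    have h1 : ε₂ * (5 * (H : ℝ)) ^ 4 ≤ (M : ℝ) ^ 4 *
        (((Fintype.piFinset (fun _ : Fin 4 => range T)).filter
          (fun t => PP B c (fun g => r g + M * t g))).card : ℝ) := by
      refine hcount.trans ?_
      exact_mod_cast hr2
    have h2 : (M : ℝ) * T ≤ 2 * (5 * (H : ℝ)) := by
      have : M * T ≤ 2 * (5 * H) := by omega
      exact_mod_cast this
    have h3 : ((M : ℝ) * T) ^ 4 ≤ (2 * (5 * (H : ℝ))) ^ 4 := pow_le_pow_left₀ (by positivity) h2 4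
    have h4 : (M : ℝ) ^ 4 * (δ * (T : ℝ) ^ 4) ≤ ε₂ * (5 * (H : ℝ)) ^ 4 := by
      calc (M : ℝ) ^ 4 * (δ * (T : ℝ) ^ 4) = δ * ((M : ℝ) * T) ^ 4 := by ring
        _ ≤ δ * (2 * (5 * (H : ℝ))) ^ 4 := mul_le_mul_of_nonneg_left h3 hδ0.le
        _ = _ := by rw [hδ]; ring
    exact le_of_mul_le_mul_left (h4.trans h1) (by positivity)
  have hbox := boxU K T hK (fun t => PP B c (fun g => r g + M * t g)) δ hδ0.le hdens
  rw [← hδ₁, ← hnn] at hbox
  have hni := ninj (ι := Fin 4 × Fin K) T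
  have hcardι : Fintype.card (Fin 4 × Fin K) = nn := by
    rw [Fintype.card_prod, Fintype.card_fin, Fintype.card_fin, hnn]
  rw [hcardι] at hni
  have hTR : (1 : ℝ) ≤ T := by exact_mod_cast hT1
  have hTbig : (nn : ℝ) ^ 2 / δ₁ + 1 ≤ T := by
    have h3 : (M : ℝ) * ((nn : ℝ) ^ 2 / δ₁ + 1) ≤ M * T := by
      have h4 : (H : ℝ) ≤ M * T := by
        have : H ≤ M * T := by omega
        exact_mod_cast this
      linarith
    exact le_of_mul_le_mul_left h3 (by linarith)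
  obtain ⟨F, hF1, hF2, hF3⟩ : ∃ F ∈ Fintype.piFinset (fun _ : Fin 4 × Fin K => range T),
      (∀ σ : Fin 4 → Fin K, PP B c (fun g => r g + M * F (g, σ g))) ∧ Function.Injective F := by
    by_contra hno
    push Not at hno
    have h1 : (((Fintype.piFinset (fun _ : Fin 4 × Fin K => range T)).filter
        (fun H => ∀ σ : Fin 4 → Fin K, PP B c (fun g => r g + M * H (g, σ g)))).card : ℝ) ≤
        (((Fintype.piFinset (fun _ : Fin 4 × Fin K => range T)).filter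
          (fun H => ¬ Function.Injective H)).card : ℝ) := by
      rw [Nat.cast_le]
      apply card_le_card
      intro F hF
      obtain ⟨hF1, hF2⟩ := mem_filter.1 hF
      exact mem_filter.2 ⟨hF1, hno F hF1 hF2⟩
    have h2 := hbox.trans h1
    have h3 : δ₁ * (T : ℝ) ^ nn * T ≤ (nn : ℝ) ^ 2 * (T : ℝ) ^ nn :=
      (mul_le_mul_of_nonneg_right h2 (by linarith)).trans hni
    have h4 : (0 : ℝ) < (T : ℝ) ^ nn := by positivity
    have h5 : δ₁ * T ≤ (nn : ℝ) ^ 2 := by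
      have h6 : (δ₁ * T) * (T : ℝ) ^ nn ≤ (nn : ℝ) ^ 2 * (T : ℝ) ^ nn := by
        calc (δ₁ * T) * (T : ℝ) ^ nn = δ₁ * (T : ℝ) ^ nn * T := by ring
          _ ≤ _ := h3
      exact le_of_mul_le_mul_right h6 h4
    have h6 : (nn : ℝ) ^ 2 / δ₁ < T := by linarith
    rw [div_lt_iff₀ hδ₁0] at h6
    linarith
  have hcross : ∀ g g', g < g' → ∀ i j, r g + M * F (g, i) < r g' + M * F (g', j) ∧
        (r g' + M * F (g', j)) - (r g + M * F (g, i)) ∈ B := by
    intro g g' hgg i j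
    have h1 := (hF2 (Function.update (fun _ => i) g' j)).1 g g' hgg
    simp only [Function.update_self, Function.update_of_ne hgg.ne] at h1
    exact h1
  refine ⟨c, r, F, ?_, ?_, hcross⟩
  · intro g
    have h1 := (hF2 (fun _ => ⟨0, hK⟩)).2 g
    have h3M : 3 ∣ M := by
      rw [hM]
      exact (Nat.prime_three.dvd_factorial).2 (by omega)
    have h2 : (r g + M * F (g, ⟨0, hK⟩)) % 3 = r g % 3 := by
      obtain ⟨m, hm⟩ := h3M
      rw [hm, mul_assoc, Nat.add_mul_mod_self_left]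
    rw [← h2]
    exact h1
  · rintro ⟨g, i⟩ ⟨g', j⟩ h
    have h' : r g + M * F (g, i) = r g' + M * F (g', j) := h
    rcases lt_trichotomy g g' with hg | hg | hg
    · have := (hcross g g' hg i j).1
      omega
    · subst hg
      exact hF3 (Nat.eq_of_mul_eq_mul_left hM0 (Nat.add_left_cancel h'))
    · have := (hcross g' g hg j i).1
      omega

open Classical in
/-- the number of the `m ≤ 2 x` such that for all `j < l` the numbers `p = m + j D` and `p + d` are prime and all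
primes at distance at most `R` from `p` are congruent to `p` modulo `2 b` -/
noncomputable def apc (b d l D R x : ℕ) : ℕ :=
  ((Icc 1 (2 * x)).filter (fun m : ℕ => ∀ j < l, (m + j * D).Prime ∧ (m + j * D + d).Prime ∧
    ∀ q : ℕ, q.Prime → |(q : ℤ) - ((m + j * D : ℕ) : ℤ)| ≤ R →
      ((2 * b : ℕ) : ℤ) ∣ (q : ℤ) - ((m + j * D : ℕ) : ℤ))).card

/-- narrow progressions of every length -/
def GoodAP (b d : ℕ) : Prop := ∀ l R : ℕ, ∃ C : ℕ, ∃ᶠ x : ℕ in atTop, ∃ D : ℕ, 1 ≤ D ∧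
    (D : ℝ) ≤ Real.log x ^ C ∧ (x : ℝ) / Real.log x ^ C ≤ (apc b d l D R x : ℝ)

open Classical in
theorem third_ap (b : ℕ) (hb : 1 ≤ b) (ε : ℝ) (hε : 0 < ε) : ∃ L : ℕ, ∀ H : ℕ, L ≤ H →
    (1 / 3 - ε) * (H : ℝ) ≤ (((Icc 1 H).filter (fun k : ℕ => GoodAP b (2 * b * k))).card : ℝ) := by
  obtain ⟨K, hK, hpat⟩ := Pool.Agent.Y827.HN.patR 4 1 (by norm_num) (by norm_num)
  obtain ⟨L, hL⟩ := config ε hε K hK
  refine ⟨L, fun H hH => ?_⟩
  by_contra hcon
  push Not at hcon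
  obtain ⟨B, hBdef⟩ : ∃ B, B = (Icc 1 H).filter (fun k : ℕ => ¬ GoodAP b (2 * b * k)) := ⟨_, rfl⟩
  have hsum : ((Icc 1 H).filter (fun k : ℕ => GoodAP b (2 * b * k))).card + B.card = H := by
    rw [hBdef, card_filter_add_card_filter_not, Nat.card_Icc, Nat.add_sub_cancel]
  have hBI : B ⊆ Icc 1 H := by rw [hBdef]; exact filter_subset _ _
  have hsumr : ((((Icc 1 H).filter (fun k : ℕ => GoodAP b (2 * b * k))).card : ℕ) : ℝ) +
      (B.card : ℝ) = H := by exact_mod_cast hsum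
  have hBr : (2 / 3 + ε) * (H : ℝ) ≤ B.card := by nlinarith
  obtain ⟨c, r, F, hr3, hinj, hcross⟩ := hL H hH B hBI hBr
  obtain ⟨M, hM⟩ : ∃ M, M = (4 * K).factorial := ⟨_, rfl⟩
  rw [← hM] at hinj hcross
  obtain ⟨po, hpo⟩ : ∃ po : Fin 4 × Fin K → ℕ, po = fun z => r z.1 + M * F z := ⟨_, rfl⟩
  rw [← hpo] at hinj
  have hpo' : ∀ z, po z = r z.1 + M * F z := fun z => by rw [hpo]
  have hcross' : ∀ z z' : Fin 4 × Fin K, z.1 < z'.1 → po z < po z' ∧ po z' - po z ∈ B := by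
    rintro ⟨g, i⟩ ⟨g', j⟩ h
    rw [hpo', hpo']
    exact hcross g g' h i j
  -- the lengths and radii
  have hbad : ∀ w : (Fin 4 × Fin K) × (Fin 4 × Fin K), ∃ l R : ℕ, w.1.1 < w.2.1 → ∀ C : ℕ,
      ∀ᶠ x : ℕ in atTop, ∀ D : ℕ, ¬ (1 ≤ D ∧ (D : ℝ) ≤ Real.log x ^ C ∧ (x : ℝ) / Real.log x ^ C ≤
        (apc b (2 * b * (po w.2 - po w.1)) l D R x : ℝ)) := by
    intro w
    by_cases hw : w.1.1 < w.2.1
    · have h1 := (hcross' w.1 w.2 hw).2
      rw [hBdef] at h1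
      have h2 := (mem_filter.1 h1).2
      unfold GoodAP at h2
      push Not at h2
      obtain ⟨l, R, h3⟩ := h2
      refine ⟨l, R, fun _ C => ?_⟩
      have h4 := h3 C
      filter_upwards [h4] with x hx D hD
      exact absurd hD.2.2 (not_le.2 (hx D hD.1 hD.2.1))
    · exact ⟨0, 0, fun h => absurd h hw⟩
  choose lf Rf hlR using hbad
  obtain ⟨l₀, hl₀⟩ : ∃ l₀, l₀ = ∑ w, lf w := ⟨_, rfl⟩
  obtain ⟨s, hs⟩ : ∃ s, s = ∑ w, Rf w + ∑ z, 2 * b * po z := ⟨_, rfl⟩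
  have hlle : ∀ w, lf w ≤ l₀ := fun w => by
    rw [hl₀]
    exact single_le_sum (f := lf) (fun _ _ => Nat.zero_le _) (mem_univ w)
  have hsle : ∀ w z, Rf w + 2 * b * po z ≤ s := fun w z => by
    rw [hs]
    exact Nat.add_le_add (single_le_sum (f := Rf) (fun _ _ => Nat.zero_le _) (mem_univ w))
      (single_le_sum (f := fun z => 2 * b * po z) (fun _ _ => Nat.zero_le _) (mem_univ z))
  obtain ⟨Hf, hHf⟩ : ∃ Hf : Fin 4 → Fin K → ℤ × ℤ, Hf = fun g i => ((1 : ℤ), ((2 * b * po (g, i) : ℕ) : ℤ)) :=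
    ⟨_, rfl⟩
  obtain ⟨U, hU⟩ : ∃ U : Finset (ℤ × ℤ), U = ((Icc (-(s : ℤ)) s).filter
      (fun t => ¬ ((2 * b : ℕ) : ℤ) ∣ t)).image (fun t : ℤ => ((1 : ℤ), t)) := ⟨_, rfl⟩
  obtain ⟨C, hC⟩ := hpat Hf (by
    rintro ⟨g, i⟩ ⟨g', i'⟩ h
    have h1 : Hf g i = Hf g' i' := h
    rw [hHf] at h1
    have h2 : ((2 * b * po (g, i) : ℕ) : ℤ) = ((2 * b * po (g', i') : ℕ) : ℤ) := (Prod.mk.inj h1).2
    have h3 : 2 * b * po (g, i) = 2 * b * po (g', i') := by exact_mod_cast h2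
    exact hinj (Nat.eq_of_mul_eq_mul_left (by omega) h3)) (fun g i => by
    rw [hHf]
    exact ⟨one_pos, isCoprime_one_left⟩) (fun p hp hpK => by
    obtain ⟨n, hn⟩ := loc4 b c r hr3 p hp
    refine ⟨n, fun g i hd => hn g ?_⟩
    rw [hHf] at hd
    have hpM : (p : ℤ) ∣ (M : ℤ) := by
      have : p ∣ M := by rw [hM]; exact (hp.dvd_factorial).2 hpK
      exact_mod_cast this
    have h1 : n + 2 * (b : ℤ) * r g = ((1 : ℤ) * n + ((2 * b * po (g, i) : ℕ) : ℤ)) -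
        M * (2 * b * F (g, i)) := by
      rw [hpo']
      push_cast
      ring
    rw [h1]
    exact dvd_sub hd (hpM.mul_right _)) U (fun u hu => by
    rw [hU] at hu
    obtain ⟨t, ht, rfl⟩ := mem_image.1 hu
    refine ⟨one_pos, isCoprime_one_left, fun g i h => ?_⟩
    rw [hHf] at h
    have h2 : t = ((2 * b * po (g, i) : ℕ) : ℤ) := (Prod.mk.inj h).2
    apply (mem_filter.1 ht).2
    rw [h2]
    exact_mod_cast dvd_mul_right (2 * b) (po (g, i))) l₀
  have hall : ∀ᶠ x : ℕ in atTop, ∀ w : (Fin 4 × Fin K) × (Fin 4 × Fin K), w.1.1 < w.2.1 →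
      ∀ D : ℕ, ¬ (1 ≤ D ∧ (D : ℝ) ≤ Real.log x ^ C ∧ (x : ℝ) / Real.log x ^ C ≤
        (apc b (2 * b * (po w.2 - po w.1)) (lf w) D (Rf w) x : ℝ)) := by
    rw [eventually_all]
    intro w
    by_cases hw : w.1.1 < w.2.1
    · filter_upwards [hlR w hw C] with x hx _
      exact hx
    · exact Eventually.of_forall fun x h => absurd h hw
  obtain ⟨N, hN1, hN2, hN3⟩ := (hC.and (hall.and (eventually_ge_atTop s))).exists
  obtain ⟨S, cc, hS, hP⟩ := hN1
  have fin : ∀ g g', g ∈ S → g' ∈ S → g < g' → False := by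
    intro g g' hg hg' hgg
    obtain ⟨z, hz⟩ : ∃ z : Fin 4 × Fin K, z = (g, cc g) := ⟨_, rfl⟩
    obtain ⟨z', hz'⟩ : ∃ z' : Fin 4 × Fin K, z' = (g', cc g') := ⟨_, rfl⟩
    have hzz : z.1 < z'.1 := by rw [hz, hz']; exact hgg
    obtain ⟨D, hD1, hD2, hD3⟩ := hP {Hf g (cc g), Hf g' (cc g')} (by
      intro f hf
      rw [mem_insert, mem_singleton] at hf
      rcases hf with rfl | rfl
      · exact mem_image.2 ⟨g, hg, rfl⟩
      · exact mem_image.2 ⟨g', hg', rfl⟩)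
    apply hN2 (z, z') hzz D
    refine ⟨hD1, hD2, hD3.trans ?_⟩
    rw [Nat.cast_le]
    unfold Pool.Agent.Y827.HN.cntX apc
    have hlt := (hcross' z z' hzz).1
    have hpz : 2 * b * po z ≤ s := (Nat.le_add_left _ _).trans (hsle (z, z') z)
    apply card_le_card_of_injOn (fun n : ℕ => n + 2 * b * po z)
    · intro n hn
      obtain ⟨hn1, hn2⟩ := mem_filter.1 (mem_coe.1 hn)
      rw [mem_Icc] at hn1
      refine mem_coe.2 (mem_filter.2 ⟨mem_Icc.2 ⟨by show 1 ≤ n + 2 * b * po z; omega,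
        by show n + 2 * b * po z ≤ 2 * N; omega⟩, fun j hj => ?_⟩)
      obtain ⟨h1, h2⟩ := hn2 j (lt_of_lt_of_le hj (hlle (z, z')))
      have h3 := h1 (Hf g (cc g)) (mem_insert_self _ _)
      have h4 := h1 (Hf g' (cc g')) (mem_insert_of_mem (mem_singleton_self _))
      rw [hHf] at h3 h4
      have e3 : ((1 : ℤ) * ((n + j * D : ℕ) : ℤ) + ((2 * b * po (g, cc g) : ℕ) : ℤ)).toNat =
          n + 2 * b * po z + j * D := by
        rw [hz, one_mul, ← Nat.cast_add, Int.toNat_natCast]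
        ring
      have e4 : ((1 : ℤ) * ((n + j * D : ℕ) : ℤ) + ((2 * b * po (g', cc g') : ℕ) : ℤ)).toNat =
          n + 2 * b * po z + j * D + 2 * b * (po z' - po z) := by
        rw [← hz', one_mul, ← Nat.cast_add, Int.toNat_natCast]
        have h5 : 2 * b * po z' = 2 * b * po z + 2 * b * (po z' - po z) := by
          rw [← Nat.mul_add, Nat.add_sub_cancel' hlt.le]
        rw [h5]
        ring
      have h3' : (n + 2 * b * po z + j * D).Prime := by
        rw [← e3]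
        exact h3
      have h4' : (n + 2 * b * po z + j * D + 2 * b * (po z' - po z)).Prime := by
        rw [← e4]
        exact h4
      refine ⟨h3', h4', fun q hq hqR => ?_⟩
      by_contra hnd
      have hqR' : |(q : ℤ) - ((n + 2 * b * po z + j * D : ℕ) : ℤ)| ≤ (Rf (z, z') : ℕ) := hqR
      have hnd' : ¬ ((2 * b : ℕ) : ℤ) ∣ (q : ℤ) - ((n + 2 * b * po z + j * D : ℕ) : ℤ) := hnd
      obtain ⟨t, ht⟩ : ∃ t : ℤ, t = (q : ℤ) - ((n + j * D : ℕ) : ℤ) := ⟨_, rfl⟩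
      have ht2 : t = ((q : ℤ) - ((n + 2 * b * po z + j * D : ℕ) : ℤ)) + ((2 * b * po z : ℕ) : ℤ) := by
        rw [ht]
        push_cast
        ring
      have htU : ((1 : ℤ), t) ∈ U := by
        rw [hU]
        refine mem_image.2 ⟨t, mem_filter.2 ⟨?_, ?_⟩, rfl⟩
        · have h6 := hsle (z, z') z
          have h7 : ((Rf (z, z') : ℕ) : ℤ) + ((2 * b * po z : ℕ) : ℤ) ≤ s := by exact_mod_cast h6
          have h8 : (0 : ℤ) ≤ ((2 * b * po z : ℕ) : ℤ) := Int.natCast_nonneg _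
          rw [abs_le] at hqR'
          rw [mem_Icc, ht2]
          constructor
          · linarith [hqR'.1]
          · linarith [hqR'.2]
        · intro h6
          apply hnd'
          have h7 : (q : ℤ) - ((n + 2 * b * po z + j * D : ℕ) : ℤ) = t - ((2 * b * po z : ℕ) : ℤ) := by
            rw [ht2]
            ring
          rw [h7]
          refine dvd_sub h6 ?_
          exact_mod_cast dvd_mul_right (2 * b) (po z)
      have h6 := h2 ((1 : ℤ), t) (mem_union_right _ htU)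
      apply h6
      have e5 : ((1 : ℤ) * ((n + j * D : ℕ) : ℤ) + t).toNat = q := by
        rw [ht, one_mul]
        have : ((n + j * D : ℕ) : ℤ) + ((q : ℤ) - ((n + j * D : ℕ) : ℤ)) = q := by ring
        rw [this, Int.toNat_natCast]
      rw [e5]
      exact hq
    · intro n _ n' _ he
      have he' : n + 2 * b * po z = n' + 2 * b * po z := he
      omega
  obtain ⟨g₁, hg₁, g₂, hg₂, hne⟩ := one_lt_card.1 (by omega : 1 < S.card)
  rcases lt_or_gt_of_ne hne with h | h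
  · exact fin g₁ g₂ hg₁ hg₂ h
  · exact fin g₂ g₁ hg₂ hg₁ h

end Pool.Agent.N646.TT
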