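import Pool.Agent.N646.TT.Key2
import Pool.Agent.Y827.HN.Pat

/-! Project TB: prime `k`-tuples which occur infinitely often, along narrow progressions, for one third of all
first differences. -/

set_option autoImplicit false

namespace Pool.Agent.N646.TT

open Finset Filter Topology

open Classical in
/-- the number of the `m ≤ 2 x` such that for all `j < l`, with `p = m + j D`, the numbers `p`, `p + 2 b d` and all
`p + 2 b t_i` are prime and all primes at distance at most `R` from `p` are congruent to `p` modulo `2 b` -/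
noncomputable def tpc {k : ℕ} (b d : ℕ) (t : Fin k → ℤ) (l D R x : ℕ) : ℕ :=
  ((Icc 1 (2 * x)).filter (fun m : ℕ => ∀ j < l, (m + j * D).Prime ∧ (m + j * D + 2 * b * d).Prime ∧
    (∀ i, (((m + j * D : ℕ) : ℤ) + 2 * b * t i).toNat.Prime) ∧
    ∀ q : ℕ, q.Prime → |(q : ℤ) - ((m + j * D : ℕ) : ℤ)| ≤ R →
      ((2 * b : ℕ) : ℤ) ∣ (q : ℤ) - ((m + j * D : ℕ) : ℤ))).card

/-- narrow progressions of every length -/
def GoodT {k : ℕ} (b d : ℕ) (t : Fin k → ℤ) : Prop := ∀ l R : ℕ, ∃ C : ℕ, ∃ᶠ x : ℕ in atTop,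
    ∃ D : ℕ, 1 ≤ D ∧ (D : ℝ) ≤ Real.log x ^ C ∧ (x : ℝ) / Real.log x ^ C ≤ (tpc b d t l D R x : ℝ)

open Classical in
theorem third_tup (k : ℕ) (ε : ℝ) (hε : 0 < ε) : ∃ c : ℝ, 0 < c ∧ ∃ L : ℕ, ∀ b : ℕ, 1 ≤ b →
    ∀ H : ℕ, L ≤ H → (1 / 3 - ε) * (H : ℝ) ≤
      (((Icc 1 H).filter (fun d : ℕ => c * (H : ℝ) ^ k ≤ ((extQ k (GoodT b) H d).card : ℝ))).card : ℝ) := by
  obtain ⟨K, hK, hpat⟩ := Pool.Agent.Y827.HN.patR (4 * (k + 1)) (k + 1) (by omega) (by
    push_cast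
    have : (0 : ℝ) ≤ k := Nat.cast_nonneg _
    linarith)
  obtain ⟨c, hc, L, hL⟩ := config2 k K hK ε hε
  refine ⟨c, hc, L, fun b hb H hH => ?_⟩
  by_contra hcon
  obtain ⟨c₃, r, F, hr3, hinj, hcross, hno⟩ := hL H hH (GoodT b) hcon
  obtain ⟨M, hM⟩ : ∃ M, M = (4 * (k + 1) * K).factorial := ⟨_, rfl⟩
  rw [← hM] at hinj hcross hno
  obtain ⟨po, hpo⟩ : ∃ po : Fin (4 * (k + 1)) × Fin K → ℕ, po = pos M r F := ⟨_, rfl⟩
  rw [← hpo] at hinj hcross
  have hpo' : ∀ z, po z = r (grp z.1) + M * F z := fun z => by rw [hpo]; rfl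
  -- the lengths and radii
  have hbad : ∀ w : (Fin (k + 2) → Fin (4 * (k + 1))) × (Fin (4 * (k + 1)) → Fin K), ∃ l R : ℕ,
      (Function.Injective w.1 ∧ grp (w.1 0) < grp (w.1 1)) → ∀ C : ℕ, ∀ᶠ x : ℕ in atTop, ∀ D : ℕ,
      ¬ (1 ≤ D ∧ (D : ℝ) ≤ Real.log x ^ C ∧ (x : ℝ) / Real.log x ^ C ≤
        (tpc b (po (w.1 1, w.2 (w.1 1)) - po (w.1 0, w.2 (w.1 0)))
          (fun i : Fin k => (po (w.1 i.succ.succ, w.2 (w.1 i.succ.succ)) : ℤ) -
            po (w.1 0, w.2 (w.1 0))) l D R x : ℝ)) := by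
    intro w
    by_cases hw : Function.Injective w.1 ∧ grp (w.1 0) < grp (w.1 1)
    · have h2 := hno w.1 w.2 hw.1 hw.2
      unfold QP GoodT at h2
      rw [← hpo] at h2
      push Not at h2
      obtain ⟨l, R, h3⟩ := h2
      refine ⟨l, R, fun _ C => ?_⟩
      have h4 := h3 C
      filter_upwards [h4] with x hx D hD
      exact absurd hD.2.2 (not_le.2 (hx D hD.1 hD.2.1))
    · exact ⟨0, 0, fun h => absurd h hw⟩
  choose lf Rf hlR using hbad
  obtain ⟨l₀, hl₀⟩ : ∃ l₀, l₀ = ∑ w, lf w := ⟨_, rfl⟩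
  obtain ⟨s, hs⟩ : ∃ s, s = ∑ w, Rf w + ∑ z, 2 * b * po z := ⟨_, rfl⟩
  have hlle : ∀ w, lf w ≤ l₀ := fun w => by
    rw [hl₀]
    exact single_le_sum (f := lf) (fun _ _ => Nat.zero_le _) (mem_univ w)
  have hsle : ∀ w z, Rf w + 2 * b * po z ≤ s := fun w z => by
    rw [hs]
    exact Nat.add_le_add (single_le_sum (f := Rf) (fun _ _ => Nat.zero_le _) (mem_univ w))
      (single_le_sum (f := fun z => 2 * b * po z) (fun _ _ => Nat.zero_le _) (mem_univ z))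
  obtain ⟨Hf, hHf⟩ : ∃ Hf : Fin (4 * (k + 1)) → Fin K → ℤ × ℤ,
      Hf = fun g i => ((1 : ℤ), ((2 * b * po (g, i) : ℕ) : ℤ)) := ⟨_, rfl⟩
  obtain ⟨U, hU⟩ : ∃ U : Finset (ℤ × ℤ), U = ((Icc (-(s : ℤ)) s).filter
      (fun t => ¬ ((2 * b : ℕ) : ℤ) ∣ t)).image (fun t : ℤ => ((1 : ℤ), t)) := ⟨_, rfl⟩
  obtain ⟨C, hC⟩ := hpat Hf (by
    rintro ⟨g, i⟩ ⟨g', i'⟩ h
    have h1 : Hf g i = Hf g' i' := h
    rw [hHf] at h1
    have h2 : ((2 * b * po (g, i) : ℕ) : ℤ) = ((2 * b * po (g', i') : ℕ) : ℤ) := (Prod.mk.inj h1).2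
    have h3 : 2 * b * po (g, i) = 2 * b * po (g', i') := by exact_mod_cast h2
    exact hinj (Nat.eq_of_mul_eq_mul_left (by omega) h3)) (fun g i => by
    rw [hHf]
    exact ⟨one_pos, isCoprime_one_left⟩) (fun p hp hpK => by
    obtain ⟨n, hn⟩ := loc4 b c₃ r hr3 p hp
    refine ⟨n, fun g i hd => hn (grp g) ?_⟩
    rw [hHf] at hd
    have hpM : (p : ℤ) ∣ (M : ℤ) := by
      have : p ∣ M := by rw [hM]; exact (hp.dvd_factorial).2 hpK
      exact_mod_cast this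
    have h1 : n + 2 * (b : ℤ) * r (grp g) = ((1 : ℤ) * n + ((2 * b * po (g, i) : ℕ) : ℤ)) -
        M * (2 * b * F (g, i)) := by
      rw [hpo']
      push_cast
      ring
    rw [h1]
    exact dvd_sub hd (hpM.mul_right _)) U (fun u hu => by
    rw [hU] at hu
    obtain ⟨t, ht, rfl⟩ := mem_image.1 hu
    refine ⟨one_pos, isCoprime_one_left, fun g i h => ?_⟩
    rw [hHf] at h
    have h2 : t = ((2 * b * po (g, i) : ℕ) : ℤ) := (Prod.mk.inj h).2
    apply (mem_filter.1 ht).2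
    rw [h2]
    exact_mod_cast dvd_mul_right (2 * b) (po (g, i))) l₀
  have hall : ∀ᶠ x : ℕ in atTop, ∀ w : (Fin (k + 2) → Fin (4 * (k + 1))) ×
      (Fin (4 * (k + 1)) → Fin K), (Function.Injective w.1 ∧ grp (w.1 0) < grp (w.1 1)) →
      ∀ D : ℕ, ¬ (1 ≤ D ∧ (D : ℝ) ≤ Real.log x ^ C ∧ (x : ℝ) / Real.log x ^ C ≤
        (tpc b (po (w.1 1, w.2 (w.1 1)) - po (w.1 0, w.2 (w.1 0)))
          (fun i : Fin k => (po (w.1 i.succ.succ, w.2 (w.1 i.succ.succ)) : ℤ) -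
            po (w.1 0, w.2 (w.1 0))) (lf w) D (Rf w) x : ℝ)) := by
    rw [eventually_all]
    intro w
    by_cases hw : Function.Injective w.1 ∧ grp (w.1 0) < grp (w.1 1)
    · filter_upwards [hlR w hw C] with x hx _
      exact hx
    · exact Eventually.of_forall fun x h => absurd h hw
  obtain ⟨N, hN1, hN2, hN3⟩ := (hC.and (hall.and (eventually_ge_atTop s))).exists
  obtain ⟨S, cc, hS, hP⟩ := hN1
  obtain ⟨γ₀, hγ₀, γ₁, hγ₁, hlt⟩ := two_groups S hS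
  obtain ⟨g, hg1, hg2, hg3, hg4⟩ := ext_tuple k S hS γ₀ γ₁ hγ₀ hγ₁ (fun h => by
    rw [h] at hlt
    exact lt_irrefl _ hlt)
  have h01 : grp (g 0) < grp (g 1) := by
    rw [hg3, hg4]
    exact hlt
  obtain ⟨zz, hzz⟩ : ∃ zz : Fin (k + 2) → Fin (4 * (k + 1)) × Fin K, zz = fun i => (g i, cc (g i)) :=
    ⟨_, rfl⟩
  have hzz' : ∀ i, (g i, cc (g i)) = zz i := fun i => by rw [hzz]
  obtain ⟨D, hD1, hD2, hD3⟩ := hP (univ.image (fun i => Hf (g i) (cc (g i)))) (by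
    intro f hf
    obtain ⟨i, -, rfl⟩ := mem_image.1 hf
    exact mem_image.2 ⟨g i, hg2 i, rfl⟩)
  have hN2' := hN2 (g, cc) ⟨hg1, h01⟩ D
  apply hN2'
  refine ⟨hD1, hD2, hD3.trans ?_⟩
  rw [Nat.cast_le]
  unfold Pool.Agent.Y827.HN.cntX tpc
  simp only [hzz']
  have hlt01 : po (zz 0) < po (zz 1) := by
    apply hcross
    rw [hzz]
    exact h01
  have hpz : 2 * b * po (zz 0) ≤ s := (Nat.le_add_left _ _).trans (hsle (g, cc) (zz 0))
  apply card_le_card_of_injOn (fun n : ℕ => n + 2 * b * po (zz 0))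
  · intro n hn
    obtain ⟨hn1, hn2⟩ := mem_filter.1 (mem_coe.1 hn)
    rw [mem_Icc] at hn1
    refine mem_coe.2 (mem_filter.2 ⟨mem_Icc.2 ⟨by show 1 ≤ n + 2 * b * po (zz 0); omega,
      by show n + 2 * b * po (zz 0) ≤ 2 * N; omega⟩, fun j hj => ?_⟩)
    obtain ⟨h1, h2⟩ := hn2 j (lt_of_lt_of_le hj (hlle (g, cc)))
    have h3 : ∀ i, (n + j * D + 2 * b * po (zz i)).Prime := by
      intro i
      have h4 := h1 (Hf (g i) (cc (g i))) (mem_image.2 ⟨i, mem_univ _, rfl⟩)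
      rw [hHf] at h4
      have e3 : ((1 : ℤ) * ((n + j * D : ℕ) : ℤ) + ((2 * b * po (g i, cc (g i)) : ℕ) : ℤ)).toNat =
          n + j * D + 2 * b * po (zz i) := by
        rw [hzz', one_mul, ← Nat.cast_add, Int.toNat_natCast]
      rw [← e3]
      exact h4
    have e0 : n + 2 * b * po (zz 0) + j * D = n + j * D + 2 * b * po (zz 0) := by ring
    refine ⟨?_, ?_, fun i => ?_, fun q hq hqR => ?_⟩
    · show (n + 2 * b * po (zz 0) + j * D).Prime
      rw [e0]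
      exact h3 0
    · show (n + 2 * b * po (zz 0) + j * D + 2 * b * (po (zz 1) - po (zz 0))).Prime
      have e1 : n + 2 * b * po (zz 0) + j * D + 2 * b * (po (zz 1) - po (zz 0)) =
          n + j * D + 2 * b * po (zz 1) := by
        have h5 : 2 * b * po (zz 1) = 2 * b * po (zz 0) + 2 * b * (po (zz 1) - po (zz 0)) := by
          rw [← Nat.mul_add, Nat.add_sub_cancel' hlt01.le]
        rw [h5]
        ring
      rw [e1]
      exact h3 1
    · show (((n + 2 * b * po (zz 0) + j * D : ℕ) : ℤ) +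
        2 * b * ((po (zz i.succ.succ) : ℤ) - po (zz 0))).toNat.Prime
      have e1 : ((n + 2 * b * po (zz 0) + j * D : ℕ) : ℤ) +
          2 * b * ((po (zz i.succ.succ) : ℤ) - po (zz 0)) =
          ((n + j * D + 2 * b * po (zz i.succ.succ) : ℕ) : ℤ) := by
        push_cast
        ring
      rw [e1, Int.toNat_natCast]
      exact h3 i.succ.succ
    · by_contra hnd
      have hqR' : |(q : ℤ) - ((n + 2 * b * po (zz 0) + j * D : ℕ) : ℤ)| ≤ (Rf (g, cc) : ℕ) := hqR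
      have hnd' : ¬ ((2 * b : ℕ) : ℤ) ∣ (q : ℤ) - ((n + 2 * b * po (zz 0) + j * D : ℕ) : ℤ) := hnd
      obtain ⟨t, ht⟩ : ∃ t : ℤ, t = (q : ℤ) - ((n + j * D : ℕ) : ℤ) := ⟨_, rfl⟩
      have ht2 : t = ((q : ℤ) - ((n + 2 * b * po (zz 0) + j * D : ℕ) : ℤ)) +
          ((2 * b * po (zz 0) : ℕ) : ℤ) := by
        rw [ht]
        push_cast
        ring
      have htU : ((1 : ℤ), t) ∈ U := by
        rw [hU]
        refine mem_image.2 ⟨t, mem_filter.2 ⟨?_, ?_⟩, rfl⟩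
        · have h6 := hsle (g, cc) (zz 0)
          have h7 : ((Rf (g, cc) : ℕ) : ℤ) + ((2 * b * po (zz 0) : ℕ) : ℤ) ≤ s := by exact_mod_cast h6
          have h8 : (0 : ℤ) ≤ ((2 * b * po (zz 0) : ℕ) : ℤ) := Int.natCast_nonneg _
          rw [abs_le] at hqR'
          rw [mem_Icc, ht2]
          constructor
          · linarith [hqR'.1]
          · linarith [hqR'.2]
        · intro h6
          apply hnd'
          have h7 : (q : ℤ) - ((n + 2 * b * po (zz 0) + j * D : ℕ) : ℤ) =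
              t - ((2 * b * po (zz 0) : ℕ) : ℤ) := by
            rw [ht2]
            ring
          rw [h7]
          refine dvd_sub h6 ?_
          exact_mod_cast dvd_mul_right (2 * b) (po (zz 0))
      have h6 := h2 ((1 : ℤ), t) (mem_union_right _ htU)
      apply h6
      have e5 : ((1 : ℤ) * ((n + j * D : ℕ) : ℤ) + t).toNat = q := by
        rw [ht, one_mul]
        have : ((n + j * D : ℕ) : ℤ) + ((q : ℤ) - ((n + j * D : ℕ) : ℤ)) = q := by ring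
        rw [this, Int.toNat_natCast]
      rw [e5]
      exact hq
  · intro n _ n' _ he
    have he' : n + 2 * b * po (zz 0) = n' + 2 * b * po (zz 0) := he
    omega

end Pool.Agent.N646.TT
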